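import Pool.Agent.H74.Bz.Forced

/-!
The tilings of the region correspond to the perfect matchings.
-/

namespace Pool.Agent.H74.Bz

open Pool.Agent.H43.Benzel

/-- The set of tiles of a matching. -/
def tiles (n : ℕ) (f : RCell n → QCell n) : Set (Set Cell) :=
  Set.range (fun x : RCell n => ({cP n x.1, cQ n x.1, cZ n (f x).1} : Set Cell))

theorem cover {n : ℕ} {c : Cell} (hc : c ∈ Bn n) :
    (∃ x : RCell n, c = cP n x.1) ∨ (∃ x : RCell n, c = cQ n x.1) ∨
      (∃ y : QCell n, c = cZ n y.1) := by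
  have hmod : (c.1 - c.2.2) % 3 = 0 ∨ (c.1 - c.2.2) % 3 = 1 ∨ (c.1 - c.2.2) % 3 = 2 := by omega
  rcases hmod with h0 | h0 | h0
  · exact Or.inl (exists_cP hc h0)
  · exact Or.inr (Or.inl (exists_cQ hc h0))
  · exact Or.inr (Or.inr (exists_cZ hc h0))

theorem isTiling_tiles {n : ℕ} (f : RCell n ≃ QCell n) (hf : ∀ x, AdjRQ x.1 (f x).1) :
    IsTiling 2 (Bn n) (tiles n f) := by
  refine ⟨?_, ?_, ?_⟩
  · rintro s ⟨x, rfl⟩
    exact isTile_of_adj (hf x)
  · rintro s ⟨x, rfl⟩ t ⟨y, rfl⟩ hst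
    have hxy : x ≠ y := by
      rintro rfl
      exact hst rfl
    have hfxy : f x ≠ f y := fun h => hxy (f.injective h)
    rw [Set.disjoint_left]
    intro c hc hc'
    simp only [Set.mem_insert_iff, Set.mem_singleton_iff] at hc hc'
    rcases hc with rfl | rfl | rfl
    · rcases hc' with h | h | h
      · exact hxy (Subtype.ext (cP_inj h))
      · exact cP_ne_cQ h
      · exact cP_ne_cZ h
    · rcases hc' with h | h | h
      · exact cP_ne_cQ h.symm
      · exact hxy (Subtype.ext (cQ_inj h))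
      · exact cQ_ne_cZ h
    · rcases hc' with h | h | h
      · exact cP_ne_cZ h.symm
      · exact cQ_ne_cZ h.symm
      · exact hfxy (Subtype.ext (cZ_inj h))
  · ext c
    rw [Set.mem_sUnion]
    constructor
    · rintro ⟨s, ⟨x, rfl⟩, hc⟩
      simp only [Set.mem_insert_iff, Set.mem_singleton_iff] at hc
      rcases hc with rfl | rfl | rfl
      · exact cP_mem x
      · exact cQ_mem x
      · exact cZ_mem (f x)
    · intro hc
      rcases cover hc with ⟨x, rfl⟩ | ⟨x, rfl⟩ | ⟨y, rfl⟩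
      · exact ⟨_, ⟨x, rfl⟩, by simp⟩
      · exact ⟨_, ⟨x, rfl⟩, by simp⟩
      · refine ⟨_, ⟨f.symm y, rfl⟩, ?_⟩
        change cZ n y.1 ∈ ({cP n (f.symm y).1, cQ n (f.symm y).1, cZ n (f (f.symm y)).1} : Set Cell)
        rw [f.apply_symm_apply]
        simp

theorem tiles_inj {n : ℕ} {f g : RCell n → QCell n} (h : tiles n f = tiles n g) : f = g := by
  funext x
  have h1 : ({cP n x.1, cQ n x.1, cZ n (f x).1} : Set Cell) ∈ tiles n g := by
    rw [← h]; exact ⟨x, rfl⟩
  obtain ⟨y, hy⟩ := h1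
  simp only at hy
  have h2 : cP n x.1 ∈ ({cP n y.1, cQ n y.1, cZ n (g y).1} : Set Cell) := by
    rw [hy]; simp
  simp only [Set.mem_insert_iff, Set.mem_singleton_iff] at h2
  rcases h2 with h2 | h2 | h2
  · have hxy : x = y := Subtype.ext (cP_inj h2)
    subst hxy
    have h3 : cZ n (f x).1 ∈ ({cP n x.1, cQ n x.1, cZ n (g x).1} : Set Cell) := by
      rw [hy]; simp
    simp only [Set.mem_insert_iff, Set.mem_singleton_iff] at h3
    rcases h3 with h3 | h3 | h3
    · exact absurd h3.symm cP_ne_cZ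
    · exact absurd h3.symm cQ_ne_cZ
    · exact Subtype.ext (cZ_inj h3)
  · exact absurd h2 cP_ne_cQ
  · exact absurd h2 cP_ne_cZ

theorem exists_tiles {n : ℕ} {F : Set (Set Cell)} (hF : IsTiling 2 (Bn n) F) :
    ∃ f : RCell n ≃ QCell n, (∀ x, AdjRQ x.1 (f x).1) ∧ F = tiles n f := by
  obtain ⟨ht, hd, hu⟩ := hF
  have hsub : ∀ s ∈ F, s ⊆ Bn n := by
    intro s hs c hc
    rw [← hu]
    exact ⟨s, hs, hc⟩
  have huniq : ∀ s ∈ F, ∀ t ∈ F, ∀ c, c ∈ s → c ∈ t → s = t := by
    intro s hs t ht' c hc hc'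
    by_contra hne
    exact Set.disjoint_left.1 (hd s hs t ht' hne) hc hc'
  have h1 : ∀ x : RCell n, ∃ x' : RCell n, ∃ y : QCell n,
      ({cP n x.1, cQ n x'.1, cZ n y.1} : Set Cell) ∈ F ∧ Good n x.1 x'.1 y.1 := by
    intro x
    have hx : cP n x.1 ∈ ⋃₀ F := by rw [hu]; exact cP_mem x
    obtain ⟨s, hs, hxs⟩ := hx
    obtain ⟨x0, x', y, rfl, hg⟩ := tile_struct (ht s hs) (hsub s hs)
    simp only [Set.mem_insert_iff, Set.mem_singleton_iff] at hxs
    rcases hxs with h | h | h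
    · have : x = x0 := Subtype.ext (cP_inj h)
      subst this
      exact ⟨x', y, hs, hg⟩
    · exact absurd h cP_ne_cQ
    · exact absurd h cP_ne_cZ
  choose σ τ hmem hgood using h1
  have hσ : Function.Injective σ := by
    intro x1 x2 h12
    have he := huniq _ (hmem x1) _ (hmem x2) (cQ n (σ x1).1) (by simp) (by rw [h12]; simp)
    have h3 : cP n x1.1 ∈ ({cP n x2.1, cQ n (σ x2).1, cZ n (τ x2).1} : Set Cell) := by
      rw [← he]; simp
    simp only [Set.mem_insert_iff, Set.mem_singleton_iff] at h3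
    rcases h3 with h3 | h3 | h3
    · exact Subtype.ext (cP_inj h3)
    · exact absurd h3 cP_ne_cQ
    · exact absurd h3 cP_ne_cZ
  have hτ : Function.Injective τ := by
    intro x1 x2 h12
    have he := huniq _ (hmem x1) _ (hmem x2) (cZ n (τ x1).1) (by simp) (by rw [h12]; simp)
    have h3 : cP n x1.1 ∈ ({cP n x2.1, cQ n (σ x2).1, cZ n (τ x2).1} : Set Cell) := by
      rw [← he]; simp
    simp only [Set.mem_insert_iff, Set.mem_singleton_iff] at h3
    rcases h3 with h3 | h3 | h3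
    · exact Subtype.ext (cP_inj h3)
    · exact absurd h3 cP_ne_cQ
    · exact absurd h3 cP_ne_cZ
  have hσid : ∀ x, σ x = x := forced σ hσ τ hgood
  have hFall : ∀ s ∈ F, ∃ x, s = {cP n x.1, cQ n x.1, cZ n (τ x).1} := by
    intro s hs
    obtain ⟨x0, x', y, he, hg⟩ := tile_struct (ht s hs) (hsub s hs)
    refine ⟨x0, ?_⟩
    have h4 := huniq _ hs _ (hmem x0) (cP n x0.1) (by rw [he]; simp) (by simp)
    rw [h4, hσid x0]
  have hτs : Function.Surjective τ := by
    intro y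
    have hy : cZ n y.1 ∈ ⋃₀ F := by rw [hu]; exact cZ_mem y
    obtain ⟨s, hs, hys⟩ := hy
    obtain ⟨x, rfl⟩ := hFall s hs
    simp only [Set.mem_insert_iff, Set.mem_singleton_iff] at hys
    rcases hys with h | h | h
    · exact absurd h.symm cP_ne_cZ
    · exact absurd h.symm cQ_ne_cZ
    · exact ⟨x, (Subtype.ext (cZ_inj h)).symm⟩
  refine ⟨Equiv.ofBijective τ ⟨hτ, hτs⟩, ?_, ?_⟩
  · intro x
    have h5 := (hgood x).2.2
    rw [hσid x] at h5
    exact h5 rfl
  · ext s
    constructor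
    · intro hs
      obtain ⟨x, rfl⟩ := hFall s hs
      exact ⟨x, rfl⟩
    · rintro ⟨x, rfl⟩
      have := hmem x
      rw [hσid x] at this
      exact this

/-- The number of tilings is the number of perfect matchings. -/
theorem ncard_eq_M (n : ℕ) : {F : Set (Set Cell) | IsTiling 2 (Bn n) F}.ncard = M n := by
  unfold M
  rw [← Nat.card_coe_set_eq]
  symm
  apply Nat.card_congr
  refine Equiv.ofBijective
    (fun f : {f : RCell n ≃ QCell n // ∀ x : RCell n, AdjRQ x.1 (f x).1} =>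
      (⟨tiles n f.1, isTiling_tiles f.1 f.2⟩ : {F : Set (Set Cell) | IsTiling 2 (Bn n) F})) ⟨?_, ?_⟩
  · intro f g h
    have h2 : tiles n f.1 = tiles n g.1 := congrArg Subtype.val h
    exact Subtype.ext (Equiv.ext (congrFun (tiles_inj h2)))
  · rintro ⟨F, hF⟩
    obtain ⟨f, hf, rfl⟩ := exists_tiles hF
    exact ⟨⟨f, hf⟩, rfl⟩

end Pool.Agent.H74.Bz
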