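import Mathlib

/-!
Benzels, their tiles and their tilings, as sets of cells of the hexagonal grid.
-/

namespace Pool.Agent.H74.Bz

/-- Triples of integers. The cells of the hexagonal grid are the triples with sum `1`. -/
abbrev Cell := ℤ × ℤ × ℤ

/-- The `(a, b)`-benzel: the cells `(i, j, k)` with `i + j + k = 1` and
`-(a - 1) ≤ j - i, k - j, i - k ≤ b - 1`. -/
def benzel (a b : ℤ) : Set Cell :=
  {c | c.1 + c.2.1 + c.2.2 = 1 ∧
    (-(a - 1) ≤ c.2.1 - c.1 ∧ c.2.1 - c.1 ≤ b - 1) ∧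
    (-(a - 1) ≤ c.2.2 - c.2.1 ∧ c.2.2 - c.2.1 ≤ b - 1) ∧
    (-(a - 1) ≤ c.1 - c.2.2 ∧ c.1 - c.2.2 ≤ b - 1)}

/-- The right stone. -/
def rightStone : Set Cell := {(1, 0, 0), (0, 1, 0), (0, 0, 1)}

/-- The left stone. -/
def leftStone : Set Cell := {(1, 0, 0), (0, 1, 0), (1, 1, -1)}

/-- The three directions of the bones. -/
def dir : Fin 3 → Cell := ![(1, -1, 0), (0, 1, -1), (-1, 0, 1)]

/-- The bone of direction `dir f` starting at the cell `(1, 0, 0)`. -/
def bone (f : Fin 3) : Set Cell :=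
  {(1, 0, 0), (1, 0, 0) + dir f, (1, 0, 0) + (dir f + dir f)}

/-- `s` is a translate of `t` by a vector with sum `0`. -/
def IsTranslate (s t : Set Cell) : Prop :=
  ∃ v : Cell, v.1 + v.2.1 + v.2.2 = 0 ∧ s = (fun c => c + v) '' t

/-- The allowed tiles: both stones and the bones of the two orientations other than `e`. -/
def IsTile (e : Fin 3) (s : Set Cell) : Prop :=
  IsTranslate s rightStone ∨ IsTranslate s leftStone ∨ ∃ f, f ≠ e ∧ IsTranslate s (bone f)

/-- `F` is a tiling of `B`: a partition of `B` into allowed tiles. -/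
def IsTiling (e : Fin 3) (B : Set Cell) (F : Set (Set Cell)) : Prop :=
  (∀ s ∈ F, IsTile e s) ∧ (∀ s ∈ F, ∀ t ∈ F, s ≠ t → Disjoint s t) ∧ ⋃₀ F = B

/-- The number of tilings of the `(3 n + 1, 3 n + 2)`-benzel by both stones and by the bones of
the two orientations other than `e`. -/
noncomputable def T (e : Fin 3) (n : ℕ) : ℕ :=
  {F : Set (Set Cell) | IsTiling e (benzel (3 * n + 1) (3 * n + 2)) F}.ncard

end Pool.Agent.H74.Bz
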