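import Pool.Agent.H74.Bz.Tile

/-!
Every tile inside the region, and the forced pairs.
-/

namespace Pool.Agent.H74.Bz

open Pool.Agent.H43.Benzel

/-- Relation between the indices of the three cells of a tile. -/
def Good (n : ℕ) (x x' y : ℕ × ℕ) : Prop :=
  x'.1 ≤ x.1 ∧ (x'.1 = x.1 → (x.1 < n → x.2 ≤ x'.2) ∧ (n ≤ x.1 → x'.2 ≤ x.2)) ∧
    (x' = x → AdjRQ x y)

theorem good_of {n : ℕ} {x x' y : ℕ × ℕ} {a b : Cell}
    (ha : a = (1, -1, 0) ∨ a = (0, 1, -1)) (hb : b = (1, -1, 0) ∨ b = (0, 1, -1))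
    (h : (cQ n x' = cP n x + a ∧ cZ n y = cP n x + (a + b)) ∨
      (cP n x = cZ n y + a ∧ cQ n x' = cZ n y + (a + b)) ∨
      (cZ n y = cQ n x' + a ∧ cP n x = cQ n x' + (a + b))) : Good n x x' y := by
  obtain ⟨x1, x2⟩ := x
  obtain ⟨x1', x2'⟩ := x'
  obtain ⟨y1, y2⟩ := y
  unfold Good AdjRQ
  simp only [Prod.mk.injEq]
  unfold cP cQ cZ at h
  simp only at h
  rcases ha with rfl | rfl <;> rcases hb with rfl | rfl <;>
  rcases h with ⟨h1, h2⟩ | ⟨h1, h2⟩ | ⟨h1, h2⟩ <;>
  · split_ifs at h1 h2 <;>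
    simp only [Prod.mk_add_mk, Prod.mk.injEq] at h1 h2 <;> omega

theorem tile_struct {n : ℕ} {s : Set Cell} (h : IsTile 2 s) (hs : s ⊆ Bn n) :
    ∃ x x' : RCell n, ∃ y : QCell n,
      s = {cP n x.1, cQ n x'.1, cZ n y.1} ∧ Good n x.1 x'.1 y.1 := by
  rw [isTile_two_iff] at h
  obtain ⟨c, a, b, hc, ha, hb, rfl⟩ := h
  unfold up at hs ⊢
  have m1 : c ∈ Bn n := hs (by simp)
  have m2 : c + a ∈ Bn n := hs (by simp)
  have m3 : c + (a + b) ∈ Bn n := hs (by simp)
  have e2 : (c + a).1 - (c + a).2.2 = c.1 - c.2.2 + 1 := by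
    rcases ha with rfl | rfl <;> simp only [Prod.fst_add, Prod.snd_add] <;> ring
  have e3 : (c + (a + b)).1 - (c + (a + b)).2.2 = c.1 - c.2.2 + 2 := by
    rcases ha with rfl | rfl <;> rcases hb with rfl | rfl <;>
      simp only [Prod.fst_add, Prod.snd_add] <;> ring
  have hmod : (c.1 - c.2.2) % 3 = 0 ∨ (c.1 - c.2.2) % 3 = 1 ∨ (c.1 - c.2.2) % 3 = 2 := by omega
  rcases hmod with h0 | h0 | h0
  · obtain ⟨x, hx⟩ := exists_cP m1 h0
    obtain ⟨x', hx'⟩ := exists_cQ m2 (by rw [e2]; omega)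
    obtain ⟨y, hy⟩ := exists_cZ m3 (by rw [e3]; omega)
    refine ⟨x, x', y, ?_, good_of ha hb (Or.inl ⟨?_, ?_⟩)⟩
    · rw [← hx, ← hx', ← hy]
    · rw [← hx, ← hx']
    · rw [← hx, ← hy]
  · obtain ⟨x', hx'⟩ := exists_cQ m1 h0
    obtain ⟨y, hy⟩ := exists_cZ m2 (by rw [e2]; omega)
    obtain ⟨x, hx⟩ := exists_cP m3 (by rw [e3]; omega)
    refine ⟨x, x', y, ?_, good_of ha hb (Or.inr (Or.inr ⟨?_, ?_⟩))⟩
    · rw [← hx, ← hx', ← hy]
      ext z; simp only [Set.mem_insert_iff, Set.mem_singleton_iff]; tauto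
    · rw [← hx', ← hy]
    · rw [← hx, ← hx']
  · obtain ⟨y, hy⟩ := exists_cZ m1 h0
    obtain ⟨x, hx⟩ := exists_cP m2 (by rw [e2]; omega)
    obtain ⟨x', hx'⟩ := exists_cQ m3 (by rw [e3]; omega)
    refine ⟨x, x', y, ?_, good_of ha hb (Or.inr (Or.inl ⟨?_, ?_⟩))⟩
    · rw [← hx, ← hx', ← hy]
      ext z; simp only [Set.mem_insert_iff, Set.mem_singleton_iff]; tauto
    · rw [← hx, ← hy]
    · rw [← hx', ← hy]

/-- A glued pair and an adjacent cell form a tile. -/
theorem isTile_of_adj {n : ℕ} {x y : ℕ × ℕ} (h : AdjRQ x y) :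
    IsTile 2 {cP n x, cQ n x, cZ n y} := by
  obtain ⟨a, b⟩ := x
  obtain ⟨c, d⟩ := y
  unfold AdjRQ at h
  simp only at h
  rw [isTile_two_iff]
  have hsum : (cP n (a, b)).1 + (cP n (a, b)).2.1 + (cP n (a, b)).2.2 = 1 := by
    unfold cP; split_ifs <;> simp only <;> ring
  have hsumZ : (cZ n (c, d)).1 + (cZ n (c, d)).2.1 + (cZ n (c, d)).2.2 = 1 := by
    unfold cZ; split_ifs <;> simp only <;> ring
  obtain ⟨h1, h2⟩ := h
  rcases h1 with h1 | h1
  · refine ⟨cP n (a, b), if a < n then (1, -1, 0) else (0, 1, -1),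
      if d = b then (if a < n then (1, -1, 0) else (1, -1, 0)) else (0, 1, -1), hsum, ?_, ?_, ?_⟩
    · split_ifs <;> simp
    · split_ifs <;> simp
    · unfold up
      have e1 : cQ n (a, b) = cP n (a, b) + (if a < n then (1, -1, 0) else (0, 1, -1)) := by
        unfold cP cQ
        simp only
        split_ifs <;> simp only [Prod.mk_add_mk, Prod.mk.injEq, true_and] <;> omega
      have e2 : cZ n (c, d) = cP n (a, b) + ((if a < n then (1, -1, 0) else (0, 1, -1)) +
          (if d = b then (if a < n then (1, -1, 0) else (1, -1, 0)) else (0, 1, -1))) := by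
        unfold cP cZ
        simp only
        split_ifs <;> simp only [Prod.mk_add_mk, Prod.mk.injEq] <;> omega
      rw [e1, e2]
  · refine ⟨cZ n (c, d), if d = b then (0, 1, -1) else (1, -1, 0),
      if a < n then (1, -1, 0) else (0, 1, -1), hsumZ, ?_, ?_, ?_⟩
    · split_ifs <;> simp
    · split_ifs <;> simp
    · unfold up
      have e1 : cP n (a, b) = cZ n (c, d) + (if d = b then (0, 1, -1) else (1, -1, 0)) := by
        unfold cP cZ
        simp only
        split_ifs <;> simp only [Prod.mk_add_mk, Prod.mk.injEq] <;> omega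
      have e2 : cQ n (a, b) = cZ n (c, d) + ((if d = b then (0, 1, -1) else (1, -1, 0)) +
          (if a < n then (1, -1, 0) else (0, 1, -1))) := by
        unfold cQ cZ
        simp only
        split_ifs <;> simp only [Prod.mk_add_mk, Prod.mk.injEq] <;> omega
      rw [e1, e2]
      ext z; simp only [Set.mem_insert_iff, Set.mem_singleton_iff]; tauto

/-- A permutation which moves every point weakly up a function preserves the function. -/
theorem eq_of_le_perm {α : Type*} [Finite α] (σ : α → α) (hσ : Function.Injective σ) (G : α → ℤ)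
    (h : ∀ x, G (σ x) ≤ G x) (x : α) : G (σ x) = G x := by
  have := Fintype.ofFinite α
  have hb : Function.Bijective σ := Finite.injective_iff_bijective.1 hσ
  have hs : ∑ x, G (σ x) = ∑ x, G x := hb.sum_comp G
  exact (Finset.sum_eq_sum_iff_of_le (fun i _ => h i)).1 hs x (Finset.mem_univ x)

/-- The forced pairs. -/
theorem forced {n : ℕ} (σ : RCell n → RCell n) (hσ : Function.Injective σ)
    (τ : RCell n → QCell n) (h : ∀ x, Good n x.1 (σ x).1 (τ x).1) (x : RCell n) : σ x = x := by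
  have h1 : ∀ x, (σ x).1.1 = x.1.1 := by
    intro x
    have h5 := eq_of_le_perm σ hσ (fun x => ((x.1.1 : ℕ) : ℤ))
      (fun x => Int.ofNat_le.2 (h x).1) x
    exact Int.ofNat_inj.1 h5
  have h2 : ∀ x, (σ x).1.2 = x.1.2 := by
    intro x
    have h6 := eq_of_le_perm σ hσ (fun x => if x.1.1 < n then -((x.1.2 : ℕ) : ℤ) else x.1.2)
      (fun x => by
        have h3 := (h x).2.1 (h1 x)
        have h4 := h1 x
        change (if (σ x).1.1 < n then -(((σ x).1.2 : ℕ) : ℤ) else (σ x).1.2) ≤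
          (if x.1.1 < n then -((x.1.2 : ℕ) : ℤ) else x.1.2)
        rw [h4]
        split_ifs with h5
        · have := h3.1 h5
          omega
        · have := h3.2 (by omega)
          omega) x
    change (if (σ x).1.1 < n then -(((σ x).1.2 : ℕ) : ℤ) else (σ x).1.2) =
          (if x.1.1 < n then -((x.1.2 : ℕ) : ℤ) else x.1.2) at h6
    rw [h1 x] at h6
    split_ifs at h6 <;> omega
  exact Subtype.ext (Prod.ext (h1 x) (h2 x))

end Pool.Agent.H74.Bz
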