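import Pool.Agent.H74.Bz.S2

/-!
The power series `gs k = (1 + t)^(k + 1) (1 - t)^(-k)` and the columns of the region.
-/

namespace Pool.Agent.H74.Bz

open PowerSeries

theorem one_sub_mul_inv : (1 - X : V) * (1 - X)⁻¹ = 1 := PowerSeries.mul_inv_cancel _ (by simp)

theorem one_add_mul_inv : (1 + X : V) * (1 + X)⁻¹ = 1 := PowerSeries.mul_inv_cancel _ (by simp)

/-- The series `(1 + t)^(k + 1) (1 - t)^(-k)`. -/
noncomputable def gs (k : ℤ) : V :=
  match k with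
  | Int.ofNat k => (1 + X) ^ (k + 1) * ((1 - X)⁻¹) ^ k
  | Int.negSucc j => (1 - X) ^ (j + 1) * ((1 + X)⁻¹) ^ j

theorem gs_ofNat (k : ℕ) : gs (k : ℤ) = (1 + X) ^ (k + 1) * ((1 - X)⁻¹) ^ k := rfl

theorem gs_negSucc (j : ℕ) : gs (-(j : ℤ) - 1) = (1 - X) ^ (j + 1) * ((1 + X)⁻¹) ^ j := by
  have : (-(j : ℤ) - 1) = Int.negSucc j := by
    rw [Int.negSucc_eq]; ring
  rw [this]
  rfl

theorem constantCoeff_gs (k : ℤ) : constantCoeff (gs k) = 1 := by
  cases k with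
  | ofNat k => simp [gs]
  | negSucc j => simp [gs]

theorem gs_rec (k : ℤ) : (1 - X) * gs k = (1 + X) * gs (k - 1) := by
  have e1 := one_sub_mul_inv
  have e2 := one_add_mul_inv
  obtain ⟨m, rfl | rfl⟩ : ∃ m : ℕ, k = m ∨ k = -(m : ℤ) - 1 := by
    rcases le_or_gt 0 k with h | h
    · exact ⟨k.toNat, Or.inl (by omega)⟩
    · exact ⟨(-k - 1).toNat, Or.inr (by omega)⟩
  · cases m with
    | zero =>
      have h1 : ((0 : ℕ) : ℤ) - 1 = -((0 : ℕ) : ℤ) - 1 := by simp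
      rw [h1, gs_negSucc, gs_ofNat]
      ring
    | succ m =>
      have h1 : ((m + 1 : ℕ) : ℤ) - 1 = (m : ℤ) := by push_cast; ring
      rw [h1, gs_ofNat, gs_ofNat]
      linear_combination ((1 + X) ^ (m + 2) * ((1 - X)⁻¹) ^ m : V) * e1
  · have h1 : (-(m : ℤ) - 1) - 1 = -((m + 1 : ℕ) : ℤ) - 1 := by push_cast; ring
    rw [h1, gs_negSucc, gs_negSucc]
    linear_combination (-((1 - X) ^ (m + 2) * ((1 + X)⁻¹) ^ m) : V) * e2

theorem X_mul_gs_add (k : ℤ) : X * (gs (k - 1) + gs k) = gs k - gs (k - 1) := by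
  linear_combination -gs_rec k

theorem pow_mul_gs (n i : ℕ) (h : i ≤ n) :
    (1 - X ^ 2) ^ n * gs (i : ℤ) = (1 + X) ^ (n + i + 1) * (1 - X) ^ (n - i) := by
  obtain ⟨d, rfl⟩ := Nat.exists_eq_add_of_le h
  rw [gs_ofNat, Nat.add_sub_cancel_left]
  have e : (1 - X ^ 2 : V) = (1 + X) * (1 - X) := by ring
  have e1 : ((1 - X : V) * (1 - X)⁻¹) ^ i = 1 := by rw [one_sub_mul_inv, one_pow]
  rw [mul_pow] at e1
  rw [e, mul_pow]
  linear_combination ((1 + X) ^ (i + d) * (1 + X) ^ (i + 1) * (1 - X) ^ d : V) * e1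

theorem pow_mul_gs_neg (n i : ℕ) (h : i ≤ n) :
    (1 - X ^ 2) ^ n * gs (-(i : ℤ) - 1) = (1 - X) ^ (n + i + 1) * (1 + X) ^ (n - i) := by
  obtain ⟨d, rfl⟩ := Nat.exists_eq_add_of_le h
  rw [gs_negSucc, Nat.add_sub_cancel_left]
  have e : (1 - X ^ 2 : V) = (1 + X) * (1 - X) := by ring
  have e1 : ((1 + X : V) * (1 + X)⁻¹) ^ i = 1 := by rw [one_add_mul_inv, one_pow]
  rw [mul_pow] at e1
  rw [e, mul_pow]
  linear_combination ((1 - X) ^ (i + d) * (1 - X) ^ (i + 1) * (1 + X) ^ d : V) * e1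

/-! ### The vectors attached to the sites -/

/-- The vector attached to the odd site `s`. -/
noncomputable def gam (s : ℤ) : Lam := ExteriorAlgebra.ι ℚ (gs ((s - 1) / 2))

/-- The vector attached to the even site `t`. -/
noncomputable def w0 (t : ℤ) : Lam := gam (t - 1) + gam (t + 1)

theorem gam_sq (s : ℤ) : gam s * gam s = 0 := ExteriorAlgebra.ι_sq_zero _

theorem sig_w0 {t : ℤ} (ht : t % 2 = 0) : sig (w0 t) = gam (t + 1) - gam (t - 1) := by
  unfold w0 gam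
  rw [← map_add, sig_iota, ← map_sub]
  congr 1
  have h1 : (t - 1 - 1) / 2 = t / 2 - 1 := by omega
  have h2 : (t + 1 - 1) / 2 = t / 2 := by omega
  rw [h1, h2]
  exact X_mul_gs_add _

theorem gam_mul_mul_gam (s : ℤ) (x : Lam) : gam s * x * gam s = 0 := iota_mul_mul_iota _ _

theorem del_gam_shift (s : ℤ) (y : Lam) : del (gam s * sig y) = del y :=
  del_shift (constantCoeff_gs _) y

theorem sig_W (v : ℤ → Lam) (S : Finset ℤ) : sig (W v S) = W (fun t => sig (v t)) S := by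
  unfold W
  rw [map_list_prod, List.map_map]
  rfl

theorem sig_pcs (X : List ℤ) (Y : Finset ℤ) (v : ℤ → Lam) :
    sig (pcs X Y (W v)) = pcs X Y (W (fun t => sig (v t))) := by
  have := map_pcs (sig : Lam →ₐ[ℚ] Lam).toRingHom.toAddMonoidHom X Y (W v)
  have h2 : (fun Z => (sig : Lam →ₐ[ℚ] Lam).toRingHom.toAddMonoidHom (W v Z)) =
      W (fun t => sig (v t)) := by
    funext Z
    exact sig_W v Z
  rw [h2] at this
  exact this

/-! ### Columns -/

theorem card_evens (a b : ℤ) : (evens (2 * a) (2 * b)).card = (b + 1 - a).toNat := by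
  have h : evens (2 * a) (2 * b) = (Finset.Icc a b).image (fun x => 2 * x) := by
    ext x
    rw [mem_evens, Finset.mem_image]
    constructor
    · rintro ⟨⟨h1, h2⟩, h3⟩
      exact ⟨x / 2, by rw [Finset.mem_Icc]; omega, by omega⟩
    · rintro ⟨y, hy, rfl⟩
      rw [Finset.mem_Icc] at hy
      omega
  rw [h, Finset.card_image_of_injective _ (fun x y hxy => by simpa using hxy), Int.card_Icc]

theorem card_odds (a b : ℤ) : (odds (2 * a + 1) (2 * b + 1)).card = (b + 1 - a).toNat := by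
  have h : odds (2 * a + 1) (2 * b + 1) = (Finset.Icc a b).image (fun x => 2 * x + 1) := by
    ext x
    rw [mem_odds, Finset.mem_image]
    constructor
    · rintro ⟨⟨h1, h2⟩, h3⟩
      exact ⟨x / 2, by rw [Finset.mem_Icc]; omega, by omega⟩
    · rintro ⟨y, hy, rfl⟩
      rw [Finset.mem_Icc] at hy
      omega
  rw [h, Finset.card_image_of_injective _ (fun x y hxy => by simpa using hxy), Int.card_Icc]

theorem mem_col {n c : ℕ} {s : ℤ} : s ∈ col n c ↔
    -(c : ℤ) ≤ s ∧ -(2 * n - 1 : ℤ) ≤ s ∧ s ≤ c ∧ s ≤ 2 * n + 1 ∧ (s - c) % 2 = 0 := by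
  unfold col
  rw [Finset.mem_filter, Finset.mem_Icc]
  omega

theorem col_even_tip {n i : ℕ} (h : i < n) : col n (2 * i) = evens (2 * (-(i : ℤ))) (2 * i) := by
  ext s
  rw [mem_col, mem_evens]
  push_cast
  omega

theorem col_odd_tip {n i : ℕ} (h1 : 1 ≤ i) (h : i ≤ n) :
    col n (2 * i - 1) = odds (2 * (-(i : ℤ)) + 1) (2 * (i - 1) + 1) := by
  ext s
  rw [mem_col, mem_odds]
  omega

theorem col_even_rect {n i : ℕ} (h : n ≤ i) :
    col n (2 * i) = evens (2 * (-(n : ℤ) + 1)) (2 * n) := by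
  ext s
  rw [mem_col, mem_evens]
  push_cast
  omega

theorem col_odd_rect {n i : ℕ} (h : n ≤ i) :
    col n (2 * i + 1) = odds (2 * (-(n : ℤ)) + 1) (2 * n + 1) := by
  ext s
  rw [mem_col, mem_odds]
  push_cast
  omega

end Pool.Agent.H74.Bz
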