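import Mathlib

/-!
Sums over matchings of a list of sites into a finite set of sites at distance one.
-/

namespace Pool.Agent.H74.Bz

/-- `pcs X Y F`: the sum, over all ways to match the sites of the list `X` one after another
to distinct sites of `Y` at distance one, of `F` of the set of the sites of `Y` left over. -/
def pcs {A : Type*} [AddCommMonoid A] : List ℤ → Finset ℤ → (Finset ℤ → A) → A
  | [], Y, F => F Y
  | x :: X, Y, F =>
      (if x - 1 ∈ Y then pcs X (Y.erase (x - 1)) F else 0) +
      (if x + 1 ∈ Y then pcs X (Y.erase (x + 1)) F else 0)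

variable {A B : Type*} [AddCommMonoid A] [AddCommMonoid B]

@[simp] theorem pcs_nil (Y : Finset ℤ) (F : Finset ℤ → A) : pcs [] Y F = F Y := rfl

theorem pcs_cons (x : ℤ) (X : List ℤ) (Y : Finset ℤ) (F : Finset ℤ → A) :
    pcs (x :: X) Y F =
      (if x - 1 ∈ Y then pcs X (Y.erase (x - 1)) F else 0) +
      (if x + 1 ∈ Y then pcs X (Y.erase (x + 1)) F else 0) := rfl

/-- Only the values of `F` on subsets of the right size matter. -/
theorem pcs_congr {X : List ℤ} {Y : Finset ℤ} {F G : Finset ℤ → A}
    (h : ∀ Z ⊆ Y, Z.card + X.length = Y.card → F Z = G Z) : pcs X Y F = pcs X Y G := by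
  induction X generalizing Y with
  | nil => exact h Y (Finset.Subset.refl _) (by simp)
  | cons x X ih =>
    rw [pcs_cons, pcs_cons]
    congr 1
    · split_ifs with hx
      · apply ih
        intro Z hZ hc
        apply h Z (hZ.trans (Finset.erase_subset _ _))
        have := Finset.card_erase_add_one hx
        simp only [List.length_cons]
        omega
      · rfl
    · split_ifs with hx
      · apply ih
        intro Z hZ hc
        apply h Z (hZ.trans (Finset.erase_subset _ _))
        have := Finset.card_erase_add_one hx
        simp only [List.length_cons]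
        omega
      · rfl

/-- `pcs` commutes with additive maps. -/
theorem map_pcs (φ : A →+ B) (X : List ℤ) (Y : Finset ℤ) (F : Finset ℤ → A) :
    φ (pcs X Y F) = pcs X Y (fun Z => φ (F Z)) := by
  induction X generalizing Y with
  | nil => rfl
  | cons x X ih =>
    rw [pcs_cons, pcs_cons, map_add]
    congr 1
    · split_ifs
      · exact ih _
      · exact map_zero φ
    · split_ifs
      · exact ih _
      · exact map_zero φ

/-- The sites of column `c` of the region of parameter `n`. -/
noncomputable def col (n c : ℕ) : Finset ℤ :=
  (Finset.Icc (-(min (c : ℤ) (2 * n - 1))) (min (c : ℤ) (2 * n + 1))).filter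
    (fun s => (s - c) % 2 = 0)

/-- Number of perfect matchings of the sites `X` of column `c` together with all the columns
`c + 1, ..., c + m`. -/
noncomputable def rho (n : ℕ) : ℕ → ℕ → Finset ℤ → ℕ
  | _, 0, X => if X = ∅ then 1 else 0
  | c, m + 1, X => pcs (X.sort (· ≤ ·)) (col n (c + 1)) (fun Y => rho n (c + 1) m Y)

end Pool.Agent.H74.Bz
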