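import Pool.Agent.H74.Bz.Count

/-!
The number of tilings does not depend on the excluded orientation.
-/

namespace Pool.Agent.H74.Bz

open Pool.Agent.H43.Benzel

/-- The rotation. -/
def rot (c : Cell) : Cell := (c.2.1, c.2.2, c.1)

theorem rot_inj : Function.Injective rot := by
  rintro ⟨a, b, c⟩ ⟨d, e, f⟩ h
  simp only [rot, Prod.mk.injEq] at h
  simp only [Prod.mk.injEq]
  omega

theorem rot_add (c d : Cell) : rot (c + d) = rot c + rot d := rfl

theorem rot_three (c : Cell) : rot (rot (rot c)) = c := rfl

theorem translate_rot {s t : Set Cell} (h : IsTranslate s t) :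
    IsTranslate (rot '' s) (rot '' t) := by
  obtain ⟨v, hv, rfl⟩ := h
  refine ⟨rot v, ?_, ?_⟩
  · simp only [rot]
    omega
  · rw [Set.image_image, Set.image_image]
    rfl

theorem translate_trans {s t r : Set Cell} (h : IsTranslate s t) (h' : IsTranslate t r) :
    IsTranslate s r := by
  obtain ⟨v, hv, rfl⟩ := h
  obtain ⟨w, hw, rfl⟩ := h'
  refine ⟨w + v, ?_, ?_⟩
  · simp only [Prod.fst_add, Prod.snd_add]
    omega
  · rw [Set.image_image]
    apply Set.image_congr
    intro a _
    rw [add_assoc]

theorem rot_right : IsTranslate (rot '' rightStone) rightStone := by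
  unfold rightStone
  rw [Set.image_insert_eq, Set.image_insert_eq, Set.image_singleton, isTranslate_iff3]
  refine ⟨0, rfl, ?_⟩
  ext c
  simp only [rot, add_zero, Set.mem_insert_iff, Set.mem_singleton_iff]
  tauto

theorem rot_left : IsTranslate (rot '' leftStone) leftStone := by
  unfold leftStone
  rw [Set.image_insert_eq, Set.image_insert_eq, Set.image_singleton, isTranslate_iff3]
  refine ⟨(0, -1, 1), by norm_num, ?_⟩
  ext c
  simp only [rot, Set.mem_insert_iff, Set.mem_singleton_iff, Prod.ext_iff, Prod.fst_add,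
    Prod.snd_add]
  omega

theorem rot_bone (f : Fin 3) : IsTranslate (rot '' bone f) (bone (f + 2)) := by
  unfold bone
  rw [Set.image_insert_eq, Set.image_insert_eq, Set.image_singleton, isTranslate_iff3]
  refine ⟨(-1, 0, 1), by norm_num, ?_⟩
  ext c
  fin_cases f
  · simp [rot, dir, Prod.ext_iff]
  · simp [rot, dir, Prod.ext_iff]
  · simp [rot, dir, Prod.ext_iff]

theorem tile_rot {e : Fin 3} {s : Set Cell} (h : IsTile e s) : IsTile (e + 2) (rot '' s) := by
  rcases h with h | h | ⟨f, hf, h⟩
  · exact Or.inl (translate_trans (translate_rot h) rot_right)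
  · exact Or.inr (Or.inl (translate_trans (translate_rot h) rot_left))
  · refine Or.inr (Or.inr ⟨f + 2, ?_, translate_trans (translate_rot h) (rot_bone f)⟩)
    intro h2
    exact hf (add_right_cancel h2)

theorem rot_Bn (n : ℕ) : rot '' (Bn n) = Bn n := by
  ext c
  constructor
  · rintro ⟨d, hd, rfl⟩
    unfold Bn benzel at hd ⊢
    simp only [Set.mem_ofPred_eq, rot] at hd ⊢
    omega
  · intro hc
    refine ⟨rot (rot c), ?_, rot_three c⟩
    unfold Bn benzel at hc ⊢
    simp only [Set.mem_ofPred_eq, rot] at hc ⊢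
    omega

/-- The rotation of a family of sets. -/
def rotF (F : Set (Set Cell)) : Set (Set Cell) := (fun s => rot '' s) '' F

theorem rotF_three (F : Set (Set Cell)) : rotF (rotF (rotF F)) = F := by
  unfold rotF
  rw [Set.image_image, Set.image_image]
  have : ∀ s : Set Cell, rot '' (rot '' (rot '' s)) = s := by
    intro s
    rw [Set.image_image, Set.image_image]
    simp only [rot_three, Set.image_id']
  simp only [this, Set.image_id']

theorem tiling_rot {e : Fin 3} {n : ℕ} {F : Set (Set Cell)} (h : IsTiling e (Bn n) F) :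
    IsTiling (e + 2) (Bn n) (rotF F) := by
  obtain ⟨h1, h2, h3⟩ := h
  refine ⟨?_, ?_, ?_⟩
  · rintro s ⟨t, ht, rfl⟩
    exact tile_rot (h1 t ht)
  · rintro s ⟨s', hs', rfl⟩ t ⟨t', ht', rfl⟩ hst
    rw [Set.disjoint_image_iff rot_inj]
    apply h2 s' hs' t' ht'
    rintro rfl
    exact hst rfl
  · unfold rotF
    rw [← rot_Bn n, ← h3, Set.image_sUnion]

theorem T_rot (e : Fin 3) (n : ℕ) : T (e + 2) n = T e n := by
  unfold T
  change {F : Set (Set Cell) | IsTiling (e + 2) (Bn n) F}.ncard =
    {F : Set (Set Cell) | IsTiling e (Bn n) F}.ncard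
  have h : {F : Set (Set Cell) | IsTiling (e + 2) (Bn n) F} =
      rotF '' {F : Set (Set Cell) | IsTiling e (Bn n) F} := by
    ext F
    simp only [Set.mem_ofPred_eq, Set.mem_image]
    constructor
    · intro hF
      refine ⟨rotF (rotF F), ?_, rotF_three F⟩
      have := tiling_rot (tiling_rot hF)
      have e2 : e + 2 + 2 + 2 = e := by
        fin_cases e <;> rfl
      rw [e2] at this
      exact this
    · rintro ⟨G, hG, rfl⟩
      exact tiling_rot hG
  rw [h]
  apply Set.ncard_image_of_injective
  intro F G hFG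
  rw [← rotF_three F, ← rotF_three G, hFG]

/-- The number of tilings. -/
theorem T_eq_M (e : Fin 3) (n : ℕ) : T e n = M n := by
  have h2 : T 2 n = M n := ncard_eq_M n
  have h1 : T 1 n = M n := by
    rw [← h2]; exact T_rot 2 n
  have h0 : T 0 n = M n := by
    rw [← h1]; exact T_rot 1 n
  fin_cases e
  · exact h0
  · exact h1
  · exact h2

end Pool.Agent.H74.Bz
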