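import Pool.Agent.H74.Bz.Wedge

/-!
Ordered products over finite sets of integers and the first summation lemma.
-/

namespace Pool.Agent.H74.Bz

variable {A : Type*} [Ring A]

/-- Ordered product of `v` over the finite set `S`. -/
noncomputable def W (v : ℤ → A) (S : Finset ℤ) : A := ((S.sort (· ≤ ·)).map v).prod

@[simp] theorem W_empty (v : ℤ → A) : W v ∅ = 1 := by simp [W]

theorem W_insert_min (v : ℤ → A) {S : Finset ℤ} {a : ℤ} (h : ∀ b ∈ S, a < b) :
    W v (insert a S) = v a * W v S := by
  unfold W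
  rw [Finset.sort_insert (r := (· ≤ ·)) (fun b hb => (h b hb).le) (fun ha => lt_irrefl _ (h a ha))]
  simp

theorem sort_insert_max {S : Finset ℤ} {a : ℤ} (h : ∀ b ∈ S, b < a) :
    (insert a S).sort (· ≤ ·) = S.sort (· ≤ ·) ++ [a] := by
  have ha : a ∉ S := fun ha => lt_irrefl _ (h a ha)
  apply List.Perm.eq_of_pairwise' (r := (· ≤ ·))
  · exact Finset.pairwise_sort _ _
  · rw [List.pairwise_append]
    refine ⟨Finset.pairwise_sort _ _, List.pairwise_singleton _ _, ?_⟩
    intro x hx y hy
    rw [Finset.mem_sort] at hx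
    rw [List.mem_singleton] at hy
    rw [hy]
    exact (h x hx).le
  · rw [List.perm_ext_iff_of_nodup (Finset.sort_nodup _ _)]
    · intro x
      simp [or_comm]
    · rw [List.nodup_append]
      refine ⟨Finset.sort_nodup _ _, List.nodup_singleton _, ?_⟩
      intro x hx y hy hxy
      rw [Finset.mem_sort] at hx
      rw [List.mem_singleton] at hy
      rw [hxy, hy] at hx
      exact ha hx

theorem W_insert_max (v : ℤ → A) {S : Finset ℤ} {a : ℤ} (h : ∀ b ∈ S, b < a) :
    W v (insert a S) = W v S * v a := by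
  unfold W
  rw [sort_insert_max h]
  simp

/-- If the square of `v a` vanishes and `a` is the maximum of `S` then `W v S * v a = 0`. -/
theorem W_mul_self {v : ℤ → A} {S : Finset ℤ} {a : ℤ} (ha : a ∈ S) (h : ∀ b ∈ S, b ≤ a)
    (hv : v a * v a = 0) : W v S * v a = 0 := by
  have h1 : S = insert a (S.erase a) := (Finset.insert_erase ha).symm
  rw [h1, W_insert_max, mul_assoc, hv, mul_zero]
  intro b hb
  rw [Finset.mem_erase] at hb
  exact lt_of_le_of_ne (h b hb.2) hb.1

/-- First summation lemma: each site of `T` goes one step to the left or to the right. -/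
theorem pcs_step_aux {v : ℤ → A} (hv : ∀ a, v a * v a = 0) (P : Finset ℤ) (T : List ℤ)
    (hT : T.Pairwise (fun a b => a + 2 ≤ b)) (hP : ∀ t ∈ T, t - 1 ∈ P ∧ t + 1 ∈ P)
    (U : Finset ℤ) (hU : U ⊆ P) (hUT : ∀ u ∈ U, ∀ t ∈ T, u ≤ t - 1) :
    pcs T (P \ U) (fun Y => W v (P \ Y)) = W v U * (T.map (fun t => v (t - 1) + v (t + 1))).prod := by
  induction T generalizing U with
  | nil =>
    simp only [pcs_nil, List.map_nil, List.prod_nil, mul_one]
    rw [Finset.sdiff_sdiff_eq_self hU]
  | cons t T ih =>
    rw [pcs_cons]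
    rw [List.pairwise_cons] at hT
    obtain ⟨hT1, hT2⟩ := hT
    have hP' : ∀ t ∈ T, t - 1 ∈ P ∧ t + 1 ∈ P := fun t ht => hP t (List.mem_cons_of_mem _ ht)
    obtain ⟨ht1, ht2⟩ := hP t (List.mem_cons_self ..)
    have hUt : ∀ u ∈ U, u ≤ t - 1 := fun u hu => hUT u hu t (List.mem_cons_self ..)
    have e1 : (P \ U).erase (t - 1) = P \ insert (t - 1) U := by
      ext x; simp only [Finset.mem_erase, Finset.mem_sdiff, Finset.mem_insert]; tauto
    have e2 : (P \ U).erase (t + 1) = P \ insert (t + 1) U := by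
      ext x; simp only [Finset.mem_erase, Finset.mem_sdiff, Finset.mem_insert]; tauto
    have h2 : t + 1 ∈ P \ U := by
      rw [Finset.mem_sdiff]
      refine ⟨ht2, fun h => ?_⟩
      have := hUt _ h
      omega
    rw [if_pos h2, e2, ih hT2 hP' (insert (t + 1) U) (Finset.insert_subset ht2 hU)
      (by
        intro u hu t' ht'
        rw [Finset.mem_insert] at hu
        have := hT1 t' ht'
        rcases hu with rfl | hu
        · omega
        · have := hUt u hu
          omega)]
    rw [W_insert_max v (fun b hb => by have := hUt b hb; omega)]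
    rw [List.map_cons, List.prod_cons, ← mul_assoc, mul_add, add_mul]
    congr 1
    by_cases h1 : t - 1 ∈ U
    · have h3 : t - 1 ∉ P \ U := by simp [h1]
      rw [if_neg h3, W_mul_self h1 hUt (hv _), zero_mul]
    · have h3 : t - 1 ∈ P \ U := by simp [h1, ht1]
      rw [if_pos h3, e1, ih hT2 hP' (insert (t - 1) U) (Finset.insert_subset ht1 hU)
        (by
          intro u hu t' ht'
          rw [Finset.mem_insert] at hu
          have := hT1 t' ht'
          rcases hu with rfl | hu
          · omega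
          · have := hUt u hu
            omega)]
      rw [W_insert_max v (fun b hb => by
        have h4 := hUt b hb
        have h5 : b ≠ t - 1 := fun h => h1 (h ▸ hb)
        omega)]

/-- First summation lemma for sets. -/
theorem pcs_step {v : ℤ → A} (hv : ∀ a, v a * v a = 0) (P T : Finset ℤ)
    (hpar : ∀ a ∈ T, ∀ b ∈ T, (a - b) % 2 = 0) (hP : ∀ t ∈ T, t - 1 ∈ P ∧ t + 1 ∈ P) :
    pcs (T.sort (· ≤ ·)) P (fun Y => W v (P \ Y)) = W (fun t => v (t - 1) + v (t + 1)) T := by
  have h := pcs_step_aux hv P (T.sort (· ≤ ·)) ?_ ?_ ∅ (Finset.empty_subset _) ?_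
  · simpa [W] using h
  · have h1 : (T.sort (· ≤ ·)).Pairwise (· < ·) := (Finset.sortedLT_sort T).pairwise
    refine List.Pairwise.imp_of_mem ?_ h1
    intro a b ha hb hab
    rw [Finset.mem_sort] at ha hb
    have := hpar a ha b hb
    omega
  · intro t ht
    rw [Finset.mem_sort] at ht
    exact hP t ht
  · simp

end Pool.Agent.H74.Bz
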