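import Pool.Agent.H74.Bz.S1

/-!
The second summation lemma: matchings of a path.
-/

namespace Pool.Agent.H74.Bz

variable {A : Type*} [Ring A]

/-- Even integers of `[a, b]`. -/
noncomputable def evens (a b : ℤ) : Finset ℤ := (Finset.Icc a b).filter (fun x => x % 2 = 0)

/-- Odd integers of `[a, b]`. -/
noncomputable def odds (a b : ℤ) : Finset ℤ := (Finset.Icc a b).filter (fun x => x % 2 = 1)

theorem mem_evens {a b x : ℤ} : x ∈ evens a b ↔ (a ≤ x ∧ x ≤ b) ∧ x % 2 = 0 := by
  simp [evens]

theorem mem_odds {a b x : ℤ} : x ∈ odds a b ↔ (a ≤ x ∧ x ≤ b) ∧ x % 2 = 1 := by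
  simp [odds]

/-- An even site to the left of everything, not adjacent to the sites of `X`, stays free. -/
theorem pcs_insert_min (w : ℤ → A) (a : ℤ) (X : List ℤ) (Y : Finset ℤ) (hX : ∀ x ∈ X, a + 1 < x)
    (hY : ∀ y ∈ Y, a < y) :
    pcs X (insert a Y) (W w) = w a * pcs X Y (W w) := by
  induction X generalizing Y with
  | nil =>
    simp only [pcs_nil]
    exact W_insert_min w hY
  | cons x X ih =>
    have hx := hX x (List.mem_cons_self ..)
    have hX' : ∀ x ∈ X, a + 1 < x := fun y hy => hX y (List.mem_cons_of_mem _ hy)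
    rw [pcs_cons, pcs_cons, mul_add]
    congr 1
    · have e : (x - 1 ∈ insert a Y) ↔ x - 1 ∈ Y := by
        rw [Finset.mem_insert]
        constructor
        · rintro (h | h)
          · omega
          · exact h
        · exact Or.inr
      by_cases h : x - 1 ∈ Y
      · rw [if_pos h, if_pos (e.2 h), Finset.erase_insert_of_ne (by omega)]
        exact ih _ hX' (fun y hy => hY y (Finset.mem_of_mem_erase hy))
      · rw [if_neg h, if_neg (fun h' => h (e.1 h')), mul_zero]
    · have e : (x + 1 ∈ insert a Y) ↔ x + 1 ∈ Y := by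
        rw [Finset.mem_insert]
        constructor
        · rintro (h | h)
          · omega
          · exact h
        · exact Or.inr
      by_cases h : x + 1 ∈ Y
      · rw [if_pos h, if_pos (e.2 h), Finset.erase_insert_of_ne (by omega)]
        exact ih _ hX' (fun y hy => hY y (Finset.mem_of_mem_erase hy))
      · rw [if_neg h, if_neg (fun h' => h (e.1 h')), mul_zero]

/-- The sum over the matchings of the path starting at the even site `a`. -/
noncomputable def H (w : ℤ → A) (S : Finset ℤ) (a b : ℤ) : A :=
  pcs ((odds a b \ S).sort (· ≤ ·)) (evens a b) (W w)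

/-- The sum over the matchings of the path starting at the odd site `a + 1`. -/
noncomputable def R (w : ℤ → A) (S : Finset ℤ) (a b : ℤ) : A :=
  pcs ((odds (a + 1) b \ S).sort (· ≤ ·)) (evens (a + 2) b) (W w)

theorem evens_eq_insert {a b : ℤ} (ha : a % 2 = 0) (hab : a ≤ b) :
    evens a b = insert a (evens (a + 2) b) := by
  ext x
  rw [Finset.mem_insert, mem_evens, mem_evens]
  omega

theorem odds_eq_of_even {a b : ℤ} (ha : a % 2 = 0) : odds a b = odds (a + 1) b := by
  ext x
  rw [mem_odds, mem_odds]
  omega

theorem sdiff_eq_of_mem {a b : ℤ} {S : Finset ℤ} (ha : a % 2 = 0) (h : a + 1 ∈ S ∨ b < a + 1) :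
    odds a b \ S = odds (a + 2) b \ S := by
  ext x
  rw [Finset.mem_sdiff, Finset.mem_sdiff, mem_odds, mem_odds]
  rcases h with h | h
  · constructor
    · rintro ⟨h1, h2⟩
      have : x ≠ a + 1 := fun h3 => h2 (h3 ▸ h)
      exact ⟨by omega, h2⟩
    · rintro ⟨h1, h2⟩
      exact ⟨by omega, h2⟩
  · constructor
    · rintro ⟨h1, h2⟩
      exact ⟨by omega, h2⟩
    · rintro ⟨h1, h2⟩
      exact ⟨by omega, h2⟩

theorem sort_sdiff_eq_cons {a b : ℤ} {S : Finset ℤ} (ha : a % 2 = 0) (h : a + 1 ∉ S)
    (hb : a + 1 ≤ b) :
    (odds a b \ S).sort (· ≤ ·) = (a + 1) :: (odds (a + 2) b \ S).sort (· ≤ ·) := by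
  have e : odds a b \ S = insert (a + 1) (odds (a + 2) b \ S) := by
    ext x
    rw [Finset.mem_insert, Finset.mem_sdiff, Finset.mem_sdiff, mem_odds, mem_odds]
    constructor
    · rintro ⟨h1, h2⟩
      by_cases h3 : x = a + 1
      · exact Or.inl h3
      · exact Or.inr ⟨by omega, h2⟩
    · rintro (h1 | ⟨h1, h2⟩)
      · subst h1
        exact ⟨by omega, h⟩
      · exact ⟨by omega, h2⟩
  rw [e, Finset.sort_insert (r := (· ≤ ·))]
  · intro x hx
    rw [Finset.mem_sdiff, mem_odds] at hx
    omega
  · intro hx
    rw [Finset.mem_sdiff, mem_odds] at hx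
    omega

/-- The case where the odd site `a + 1` does not take part. -/
theorem H_of_mem (w : ℤ → A) {S : Finset ℤ} {a b : ℤ} (ha : a % 2 = 0) (hab : a ≤ b)
    (h : a + 1 ∈ S ∨ b < a + 1) :
    H w S a b = w a * H w S (a + 2) b ∧ R w S a b = H w S (a + 2) b := by
  constructor
  · unfold H
    rw [sdiff_eq_of_mem ha h, evens_eq_insert ha hab]
    apply pcs_insert_min
    · intro x hx
      rw [Finset.mem_sort, Finset.mem_sdiff, mem_odds] at hx
      omega
    · intro y hy
      rw [mem_evens] at hy
      omega
  · unfold H R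
    rw [← odds_eq_of_even ha, sdiff_eq_of_mem ha h]

/-- The case where the odd site `a + 1` takes part. -/
theorem H_of_not_mem (w : ℤ → A) {S : Finset ℤ} {a b : ℤ} (ha : a % 2 = 0)
    (h : a + 1 ∉ S) (hb : a + 1 ≤ b) :
    H w S a b = H w S (a + 2) b + w a * R w S a b ∧
      R w S a b = if a + 2 ≤ b then R w S (a + 2) b else 0 := by
  have ha2 : (a + 2) % 2 = 0 := by omega
  have hR : R w S a b = if a + 2 ≤ b then R w S (a + 2) b else 0 := by
    unfold R
    rw [← odds_eq_of_even ha, sort_sdiff_eq_cons ha h hb, pcs_cons]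
    have h1 : a + 1 - 1 ∉ evens (a + 2) b := by rw [mem_evens]; omega
    rw [if_neg h1, zero_add]
    by_cases h2 : a + 2 ≤ b
    · have h3 : a + 1 + 1 ∈ evens (a + 2) b := by rw [mem_evens]; omega
      rw [if_pos h3, if_pos h2, evens_eq_insert ha2 h2]
      have e : a + 1 + 1 = a + 2 := by ring
      rw [e, Finset.erase_insert, ← odds_eq_of_even ha2]
      rw [mem_evens]; omega
    · have h3 : a + 1 + 1 ∉ evens (a + 2) b := by rw [mem_evens]; omega
      rw [if_neg h3, if_neg h2]
  refine ⟨?_, hR⟩
  rw [hR]
  unfold H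
  rw [sort_sdiff_eq_cons ha h hb, pcs_cons]
  have h1 : a + 1 - 1 ∈ evens a b := by rw [mem_evens]; omega
  rw [if_pos h1]
  have e1 : a + 1 - 1 = a := by ring
  have e2 : a + 1 + 1 = a + 2 := by ring
  rw [e1, e2]
  congr 1
  · rw [evens_eq_insert ha (by omega), Finset.erase_insert]
    rw [mem_evens]; omega
  · by_cases h2 : a + 2 ≤ b
    · have h3 : a + 2 ∈ evens a b := by rw [mem_evens]; omega
      rw [if_pos h3, if_pos h2]
      have e3 : (evens a b).erase (a + 2) = insert a (evens (a + 2 + 2) b) := by
        ext x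
        rw [Finset.mem_erase, Finset.mem_insert, mem_evens, mem_evens]
        omega
      rw [e3, pcs_insert_min]
      · unfold R
        rw [← odds_eq_of_even ha2]
      · intro x hx
        rw [Finset.mem_sort, Finset.mem_sdiff, mem_odds] at hx
        omega
      · intro y hy
        rw [mem_evens] at hy
        omega
    · have h3 : a + 2 ∉ evens a b := by rw [mem_evens]; omega
      rw [if_neg h3, if_neg h2, mul_zero]

theorem H_of_lt (w : ℤ → A) {S : Finset ℤ} {a b : ℤ} (h : b < a) : H w S a b = 1 := by
  unfold H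
  have e1 : odds a b \ S = ∅ := by
    ext x
    rw [Finset.mem_sdiff, mem_odds]
    simp only [Finset.notMem_empty, iff_false]
    omega
  have e2 : evens a b = ∅ := by
    ext x
    rw [mem_evens]
    simp only [Finset.notMem_empty, iff_false]
    omega
  rw [e1, e2]
  simp

/-- Second summation lemma. -/
theorem H_add_R {g w : ℤ → A} (hw : ∀ t, t % 2 = 0 → w t = g (t + 1) - g (t - 1))
    (hg : ∀ a, g a * g a = 0) {S : Finset ℤ} {b : ℤ} (hS : ∀ s ∈ S, s % 2 = 1 ∧ s ≤ b)
    (m : ℕ) : ∀ a : ℤ, a % 2 = 0 → (b - b % 2) - 2 * m = a →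
      H w S a b + g (a - 1) * R w S a b =
        W g (S.filter (fun s => a ≤ s)) * (if b % 2 = 0 then g (b + 1) else 1) ∧
      ((S.filter (fun s => a ≤ s)).Nonempty → ∃ s, s % 2 = 1 ∧ g s * R w S a b =
        W g (S.filter (fun s => a ≤ s)) * (if b % 2 = 0 then g (b + 1) else 1)) := by
  induction m with
  | zero =>
    intro a ha hab
    simp only [Nat.cast_zero, mul_zero, sub_zero] at hab
    by_cases hb : b % 2 = 0
    · have hab' : a = b := by omega
      subst hab'
      have hm := H_of_mem w (S := S) ha le_rfl (Or.inr (by omega))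
      rw [H_of_lt (S := S) (a := a + 2) (b := a) w (by omega)] at hm
      have e : S.filter (fun s => a ≤ s) = ∅ := by
        ext s
        simp only [Finset.mem_filter, Finset.notMem_empty, iff_false, not_and]
        intro hs
        have := hS s hs
        omega
      rw [e]
      refine ⟨?_, fun h => absurd h (by simp)⟩
      rw [hm.1, hm.2, if_pos hb, hw a ha]
      simp
    · have hb1 : b % 2 = 1 := by omega
      have hab' : a + 1 = b := by omega
      rw [if_neg hb]
      by_cases hs : a + 1 ∈ S
      · have hm := H_of_mem w (S := S) ha (by omega : a ≤ b) (Or.inl hs)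
        rw [H_of_lt (S := S) (a := a + 2) (b := b) w (by omega)] at hm
        have e : S.filter (fun s => a ≤ s) = {a + 1} := by
          ext s
          simp only [Finset.mem_filter, Finset.mem_singleton]
          constructor
          · rintro ⟨h1, h2⟩
            have := hS s h1
            omega
          · rintro rfl
            exact ⟨hs, by omega⟩
        rw [e]
        refine ⟨?_, fun _ => ⟨a + 1, by omega, ?_⟩⟩
        · rw [hm.1, hm.2, hw a ha]
          simp [W]
        · rw [hm.2]
          simp [W]
      · have hm := H_of_not_mem w (S := S) (b := b) ha hs (by omega)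
        rw [H_of_lt (S := S) (a := a + 2) (b := b) w (by omega), if_neg (by omega)] at hm
        have e : S.filter (fun s => a ≤ s) = ∅ := by
          ext s
          simp only [Finset.mem_filter, Finset.notMem_empty, iff_false, not_and]
          intro h1 h2
          have h3 := hS s h1
          have : s = a + 1 := by omega
          exact hs (this ▸ h1)
        rw [e]
        refine ⟨?_, fun h => absurd h (by simp)⟩
        rw [hm.1, hm.2]
        simp
  | succ m ih =>
    intro a ha hab
    push_cast at hab
    have hab2 : (b - b % 2) - 2 * (m : ℤ) = a + 2 := by omega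
    have ha2 : (a + 2) % 2 = 0 := by omega
    obtain ⟨ih1, ih2⟩ := ih (a + 2) ha2 hab2
    have hle : a + 2 ≤ b := by omega
    have e0 : a + 2 - 1 = a + 1 := by ring
    rw [e0] at ih1
    by_cases hs : a + 1 ∈ S
    · have hm := H_of_mem w (S := S) ha (by omega : a ≤ b) (Or.inl hs)
      have e : S.filter (fun s => a ≤ s) = insert (a + 1) (S.filter (fun s => a + 2 ≤ s)) := by
        ext s
        simp only [Finset.mem_filter, Finset.mem_insert]
        constructor
        · rintro ⟨h1, h2⟩
          have := hS s h1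
          by_cases h3 : s = a + 1
          · exact Or.inl h3
          · exact Or.inr ⟨h1, by omega⟩
        · rintro (rfl | ⟨h1, h2⟩)
          · exact ⟨hs, by omega⟩
          · exact ⟨h1, by omega⟩
      have e2 : W g (S.filter (fun s => a ≤ s)) = g (a + 1) * W g (S.filter (fun s => a + 2 ≤ s)) := by
        rw [e, W_insert_min]
        intro b hb
        rw [Finset.mem_filter] at hb
        omega
      have key : g (a + 1) * H w S (a + 2) b =
          W g (S.filter (fun s => a ≤ s)) * (if b % 2 = 0 then g (b + 1) else 1) := by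
        rw [e2, mul_assoc, ← ih1, mul_add, ← mul_assoc, hg, zero_mul, add_zero]
      refine ⟨?_, fun _ => ⟨a + 1, by omega, ?_⟩⟩
      · rw [hm.1, hm.2, hw a ha, ← add_mul, sub_add_cancel]
        exact key
      · rw [hm.2]
        exact key
    · have hm := H_of_not_mem w (S := S) (b := b) ha hs (by omega)
      rw [if_pos hle] at hm
      have e : S.filter (fun s => a ≤ s) = S.filter (fun s => a + 2 ≤ s) := by
        ext s
        simp only [Finset.mem_filter]
        constructor
        · rintro ⟨h1, h2⟩
          have h3 := hS s h1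
          have h4 : s ≠ a + 1 := fun h => hs (h ▸ h1)
          exact ⟨h1, by omega⟩
        · rintro ⟨h1, h2⟩
          exact ⟨h1, by omega⟩
      rw [e]
      refine ⟨?_, ?_⟩
      · rw [hm.1, hm.2, hw a ha, ← ih1]
        noncomm_ring
      · intro hne
        rw [hm.2]
        exact ih2 hne

end Pool.Agent.H74.Bz
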