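import Pool.Agent.H74.Bz.Defs
import Pool.Agent.H43.Benzel.Mid

/-!
The tiles when the bones of direction `(-1, 0, 1)` are excluded.
-/

namespace Pool.Agent.H74.Bz

open Pool.Agent.H43.Benzel

/-- The cells `{x, x + a, x + a + b}`. -/
def up (x a b : Cell) : Set Cell := {x, x + a, x + (a + b)}

theorem isTranslate_iff3 {s : Set Cell} {x y z : Cell} :
    IsTranslate s {x, y, z} ↔ ∃ v : Cell, v.1 + v.2.1 + v.2.2 = 0 ∧ s = {x + v, y + v, z + v} := by
  unfold IsTranslate
  constructor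
  · rintro ⟨v, hv, rfl⟩
    refine ⟨v, hv, ?_⟩
    rw [Set.image_insert_eq, Set.image_insert_eq, Set.image_singleton]
  · rintro ⟨v, hv, rfl⟩
    refine ⟨v, hv, ?_⟩
    rw [Set.image_insert_eq, Set.image_insert_eq, Set.image_singleton]

/-- All tiles are upward paths of length three. -/
theorem isTile_two_iff {s : Set Cell} :
    IsTile 2 s ↔ ∃ x a b : Cell, x.1 + x.2.1 + x.2.2 = 1 ∧
      (a = (1, -1, 0) ∨ a = (0, 1, -1)) ∧ (b = (1, -1, 0) ∨ b = (0, 1, -1)) ∧ s = up x a b := by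
  constructor
  · rintro (h | h | ⟨f, hf, h⟩)
    · rw [rightStone, isTranslate_iff3] at h
      obtain ⟨⟨i, j, k⟩, hv, rfl⟩ := h
      simp only at hv
      refine ⟨(i, j, k + 1), (0, 1, -1), (1, -1, 0), by simp only; omega, Or.inr rfl, Or.inl rfl, ?_⟩
      unfold up
      ext c
      simp only [Set.mem_insert_iff, Set.mem_singleton_iff, Prod.ext_iff, Prod.fst_add, Prod.snd_add]
      omega
    · rw [leftStone, isTranslate_iff3] at h
      obtain ⟨⟨i, j, k⟩, hv, rfl⟩ := h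
      simp only at hv
      refine ⟨(i, j + 1, k), (1, -1, 0), (0, 1, -1), by simp only; omega, Or.inl rfl, Or.inr rfl, ?_⟩
      unfold up
      ext c
      simp only [Set.mem_insert_iff, Set.mem_singleton_iff, Prod.ext_iff, Prod.fst_add, Prod.snd_add]
      omega
    · rw [bone, isTranslate_iff3] at h
      obtain ⟨⟨i, j, k⟩, hv, rfl⟩ := h
      simp only at hv
      have hf' : f = 0 ∨ f = 1 := by
        fin_cases f <;> simp_all
      rcases hf' with rfl | rfl
      · refine ⟨(i + 1, j, k), (1, -1, 0), (1, -1, 0), by simp only; omega, Or.inl rfl, Or.inl rfl, ?_⟩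
        unfold up
        ext c
        simp only [Set.mem_insert_iff, Set.mem_singleton_iff, Prod.ext_iff, Prod.fst_add,
          Prod.snd_add, dir, Matrix.cons_val_zero]
        omega
      · refine ⟨(i + 1, j, k), (0, 1, -1), (0, 1, -1), by simp only; omega, Or.inr rfl, Or.inr rfl, ?_⟩
        unfold up
        ext c
        simp only [Set.mem_insert_iff, Set.mem_singleton_iff, Prod.ext_iff, Prod.fst_add,
          Prod.snd_add, dir, Matrix.cons_val_one, Matrix.cons_val_zero]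
        omega
  · rintro ⟨⟨i, j, k⟩, a, b, hx, ha | ha, hb | hb, rfl⟩
    · subst ha hb
      simp only at hx
      right; right
      refine ⟨0, by decide, ?_⟩
      rw [bone, isTranslate_iff3]
      refine ⟨(i - 1, j, k), by simp only; omega, ?_⟩
      unfold up
      ext c
      simp only [Set.mem_insert_iff, Set.mem_singleton_iff, Prod.ext_iff, Prod.fst_add,
        Prod.snd_add, dir, Matrix.cons_val_zero]
      omega
    · subst ha hb
      simp only at hx
      right; left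
      rw [leftStone, isTranslate_iff3]
      refine ⟨(i, j - 1, k), by simp only; omega, ?_⟩
      unfold up
      ext c
      simp only [Set.mem_insert_iff, Set.mem_singleton_iff, Prod.ext_iff, Prod.fst_add,
        Prod.snd_add]
      omega
    · subst ha hb
      simp only at hx
      left
      rw [rightStone, isTranslate_iff3]
      refine ⟨(i, j, k - 1), by simp only; omega, ?_⟩
      unfold up
      ext c
      simp only [Set.mem_insert_iff, Set.mem_singleton_iff, Prod.ext_iff, Prod.fst_add,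
        Prod.snd_add]
      omega
    · subst ha hb
      simp only at hx
      right; right
      refine ⟨1, by decide, ?_⟩
      rw [bone, isTranslate_iff3]
      refine ⟨(i - 1, j, k), by simp only; omega, ?_⟩
      unfold up
      ext c
      simp only [Set.mem_insert_iff, Set.mem_singleton_iff, Prod.ext_iff, Prod.fst_add,
        Prod.snd_add, dir, Matrix.cons_val_one, Matrix.cons_val_zero]
      omega

/-! ### Coordinates of the cells of the region -/

/-- The colour 1 cell of the glued pair `(k, r)`. -/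
def cP (n : ℕ) (x : ℕ × ℕ) : Cell :=
  if x.1 < n then (-(n : ℤ) + 2 * x.1 - x.2, -(n : ℤ) - x.1 + 1 + 2 * x.2, 2 * (n : ℤ) - x.1 - x.2)
  else ((x.1 : ℤ) - x.2, -3 * (n : ℤ) + x.1 + 1 + 2 * x.2, 3 * (n : ℤ) - 2 * x.1 - x.2)

/-- The colour 2 cell of the glued pair `(k, r)`. -/
def cQ (n : ℕ) (x : ℕ × ℕ) : Cell :=
  if x.1 < n then (-(n : ℤ) + 2 * x.1 - x.2 + 1, -(n : ℤ) - x.1 + 2 * x.2, 2 * (n : ℤ) - x.1 - x.2)
  else ((x.1 : ℤ) - x.2, -3 * (n : ℤ) + x.1 + 2 + 2 * x.2, 3 * (n : ℤ) - 2 * x.1 - x.2 - 1)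

/-- The colour 0 cell `(k, q)`. -/
def cZ (n : ℕ) (x : ℕ × ℕ) : Cell :=
  if x.1 < n then
    (-(n : ℤ) + 2 * x.1 - x.2 + 2, -(n : ℤ) - x.1 - 1 + 2 * x.2, 2 * (n : ℤ) - x.1 - x.2)
  else ((x.1 : ℤ) - x.2 + 1, -3 * (n : ℤ) + x.1 + 1 + 2 * x.2, 3 * (n : ℤ) - 2 * x.1 - x.2 - 1)

theorem cP_inj {n : ℕ} {x y : ℕ × ℕ} (h : cP n x = cP n y) : x = y := by
  obtain ⟨a, b⟩ := x
  obtain ⟨c, d⟩ := y
  unfold cP at h
  split_ifs at h <;> simp only [Prod.mk.injEq] at h ⊢ <;> omega

theorem cQ_inj {n : ℕ} {x y : ℕ × ℕ} (h : cQ n x = cQ n y) : x = y := by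
  obtain ⟨a, b⟩ := x
  obtain ⟨c, d⟩ := y
  unfold cQ at h
  split_ifs at h <;> simp only [Prod.mk.injEq] at h ⊢ <;> omega

theorem cZ_inj {n : ℕ} {x y : ℕ × ℕ} (h : cZ n x = cZ n y) : x = y := by
  obtain ⟨a, b⟩ := x
  obtain ⟨c, d⟩ := y
  unfold cZ at h
  split_ifs at h <;> simp only [Prod.mk.injEq] at h ⊢ <;> omega

theorem cP_ne_cQ {n : ℕ} {x y : ℕ × ℕ} : cP n x ≠ cQ n y := by
  obtain ⟨a, b⟩ := x
  obtain ⟨c, d⟩ := y
  intro h
  unfold cP cQ at h
  split_ifs at h <;> simp only [Prod.mk.injEq] at h <;> omega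

theorem cP_ne_cZ {n : ℕ} {x y : ℕ × ℕ} : cP n x ≠ cZ n y := by
  obtain ⟨a, b⟩ := x
  obtain ⟨c, d⟩ := y
  intro h
  unfold cP cZ at h
  split_ifs at h <;> simp only [Prod.mk.injEq] at h <;> omega

theorem cQ_ne_cZ {n : ℕ} {x y : ℕ × ℕ} : cQ n x ≠ cZ n y := by
  obtain ⟨a, b⟩ := x
  obtain ⟨c, d⟩ := y
  intro h
  unfold cQ cZ at h
  split_ifs at h <;> simp only [Prod.mk.injEq] at h <;> omega

/-- The region. -/
def Bn (n : ℕ) : Set Cell := benzel (3 * n + 1) (3 * n + 2)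

theorem cP_mem {n : ℕ} (x : RCell n) : cP n x.1 ∈ Bn n := by
  obtain ⟨⟨a, b⟩, h1, h2⟩ := x
  simp only at h1 h2
  unfold Bn benzel cP
  unfold rs at h2
  simp only [Set.mem_ofPred_eq]
  split_ifs at h2 ⊢ <;> simp only <;> omega

theorem cQ_mem {n : ℕ} (x : RCell n) : cQ n x.1 ∈ Bn n := by
  obtain ⟨⟨a, b⟩, h1, h2⟩ := x
  simp only at h1 h2
  unfold Bn benzel cQ
  unfold rs at h2
  simp only [Set.mem_ofPred_eq]
  split_ifs at h2 ⊢ <;> simp only <;> omega

theorem cZ_mem {n : ℕ} (x : QCell n) : cZ n x.1 ∈ Bn n := by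
  obtain ⟨⟨a, b⟩, h1, h2⟩ := x
  simp only at h1 h2
  unfold Bn benzel cZ
  unfold qs at h2
  simp only [Set.mem_ofPred_eq]
  split_ifs at h2 ⊢ <;> simp only <;> omega

theorem exists_cP {n : ℕ} {c : Cell} (hc : c ∈ Bn n) (h3 : (c.1 - c.2.2) % 3 = 0) :
    ∃ x : RCell n, c = cP n x.1 := by
  obtain ⟨i, j, k⟩ := c
  unfold Bn benzel at hc
  simp only [Set.mem_ofPred_eq] at hc
  simp only at h3
  obtain ⟨h0, h1, h2, h4⟩ := hc
  by_cases hlt : i - k < 0
  · refine ⟨⟨(((i - k + 3 * n) / 3).toNat, ((j + n + (i - k + 3 * n) / 3 - 1) / 2).toNat), ?_, ?_⟩, ?_⟩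
    · simp only; omega
    · simp only [rs]; split_ifs <;> omega
    · unfold cP; simp only
      rw [if_pos (by omega)]
      simp only [Prod.mk.injEq]
      omega
  · refine ⟨⟨(((i - k + 3 * n) / 3).toNat, ((j + 3 * n - (i - k + 3 * n) / 3 - 1) / 2).toNat), ?_, ?_⟩, ?_⟩
    · simp only; omega
    · simp only [rs]; split_ifs <;> omega
    · unfold cP; simp only
      rw [if_neg (by omega)]
      simp only [Prod.mk.injEq]
      omega

theorem exists_cQ {n : ℕ} {c : Cell} (hc : c ∈ Bn n) (h3 : (c.1 - c.2.2) % 3 = 1) :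
    ∃ x : RCell n, c = cQ n x.1 := by
  obtain ⟨i, j, k⟩ := c
  unfold Bn benzel at hc
  simp only [Set.mem_ofPred_eq] at hc
  simp only at h3
  obtain ⟨h0, h1, h2, h4⟩ := hc
  by_cases hlt : i - k < 0
  · refine ⟨⟨(((i - k + 3 * n) / 3).toNat, ((j + n + (i - k + 3 * n) / 3) / 2).toNat), ?_, ?_⟩, ?_⟩
    · simp only; omega
    · simp only [rs]; split_ifs <;> omega
    · unfold cQ; simp only
      rw [if_pos (by omega)]
      simp only [Prod.mk.injEq]
      omega
  · refine ⟨⟨(((i - k + 3 * n) / 3).toNat, ((j + 3 * n - (i - k + 3 * n) / 3 - 2) / 2).toNat), ?_, ?_⟩, ?_⟩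
    · simp only; omega
    · simp only [rs]; split_ifs <;> omega
    · unfold cQ; simp only
      rw [if_neg (by omega)]
      simp only [Prod.mk.injEq]
      omega

theorem exists_cZ {n : ℕ} {c : Cell} (hc : c ∈ Bn n) (h3 : (c.1 - c.2.2) % 3 = 2) :
    ∃ x : QCell n, c = cZ n x.1 := by
  obtain ⟨i, j, k⟩ := c
  unfold Bn benzel at hc
  simp only [Set.mem_ofPred_eq] at hc
  simp only at h3
  obtain ⟨h0, h1, h2, h4⟩ := hc
  by_cases hlt : i - k < 0
  · refine ⟨⟨(((i - k + 3 * n) / 3).toNat, ((j + n + (i - k + 3 * n) / 3 + 1) / 2).toNat), ?_, ?_⟩, ?_⟩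
    · simp only; omega
    · simp only [qs]; split_ifs <;> omega
    · unfold cZ; simp only
      rw [if_pos (by omega)]
      simp only [Prod.mk.injEq]
      omega
  · refine ⟨⟨(((i - k + 3 * n) / 3).toNat, ((j + 3 * n - (i - k + 3 * n) / 3 - 1) / 2).toNat), ?_, ?_⟩, ?_⟩
    · simp only; omega
    · simp only [qs]; split_ifs <;> omega
    · unfold cZ; simp only
      rw [if_neg (by omega)]
      simp only [Prod.mk.injEq]
      omega

end Pool.Agent.H74.Bz
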