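import Pool.Agent.H74.Bz.Gen

/-!
The number of perfect matchings as a value of `del`.
-/

namespace Pool.Agent.H74.Bz

theorem del_one : del 1 = 1 := by
  have h := del_iMulti (N := 0) (fun i => i.elim0)
  rw [ExteriorAlgebra.ιMulti_zero_apply] at h
  rw [h]
  simp

theorem W_congr {A : Type*} [Ring A] {v w : ℤ → A} {S : Finset ℤ} (h : ∀ s ∈ S, v s = w s) :
    W v S = W w S := by
  unfold W
  congr 1
  apply List.map_congr_left
  intro s hs
  rw [Finset.mem_sort] at hs
  exact h s hs

/-- Step from an even column to the odd column on its right. -/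
theorem step_even {n c m : ℕ} {T : Finset ℤ} (hT : T ⊆ col n c) (hc : c % 2 = 0)
    (hcol : ∀ t ∈ col n c, t - 1 ∈ col n (c + 1) ∧ t + 1 ∈ col n (c + 1)) (x y : Lam)
    (h : ∀ Y ⊆ col n (c + 1), (col n (c + 1) \ Y).card = T.card →
      (rho n (c + 1) m Y : ℚ) = del (x * W gam (col n (c + 1) \ Y) * y)) :
    (rho n c (m + 1) T : ℚ) = del (x * W w0 T * y) := by
  have h1 : (rho n c (m + 1) T : ℚ) =
      pcs (T.sort (· ≤ ·)) (col n (c + 1)) (fun Y => ((rho n (c + 1) m Y : ℕ) : ℚ)) := by
    change ((pcs _ _ _ : ℕ) : ℚ) = _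
    exact map_pcs (Nat.castAddMonoidHom ℚ) _ _ _
  rw [h1]
  have h2 : pcs (T.sort (· ≤ ·)) (col n (c + 1)) (fun Y => ((rho n (c + 1) m Y : ℕ) : ℚ)) =
      pcs (T.sort (· ≤ ·)) (col n (c + 1)) (fun Y => del (x * W gam (col n (c + 1) \ Y) * y)) := by
    apply pcs_congr
    intro Z hZ hcard
    apply h Z hZ
    rw [Finset.card_sdiff_of_subset hZ]
    rw [Finset.length_sort] at hcard
    omega
  rw [h2]
  have h3 := pcs_step (v := gam) gam_sq (col n (c + 1)) T
    (fun a ha b hb => by
      have := mem_col.1 (hT ha)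
      have := mem_col.1 (hT hb)
      omega)
    (fun t ht => hcol t (hT ht))
  let φ : Lam →+ ℚ :=
    (del ∘ₗ LinearMap.mulRight ℚ y ∘ₗ LinearMap.mulLeft ℚ x).toAddMonoidHom
  have h4 : ∀ z, φ z = del (x * z * y) := fun z => rfl
  have h5 := map_pcs φ (T.sort (· ≤ ·)) (col n (c + 1)) (fun Y => W gam (col n (c + 1) \ Y))
  rw [h3] at h5
  simp only [h4] at h5
  rw [← h5]
  rfl

/-- Step from an odd column to the even column on its right. -/
theorem step_odd {n c m : ℕ} {Y : Finset ℤ} (hY : Y ⊆ col n c) (x y : Lam)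
    (h : ∀ T ⊆ col n (c + 1), T.card + Y.card = (col n (c + 1)).card →
      (rho n (c + 1) m T : ℚ) = del (x * W w0 T * y)) :
    (rho n c (m + 1) Y : ℚ) =
      del (x * pcs ((col n c \ (col n c \ Y)).sort (· ≤ ·)) (col n (c + 1)) (W w0) * y) := by
  have h1 : (rho n c (m + 1) Y : ℚ) =
      pcs (Y.sort (· ≤ ·)) (col n (c + 1)) (fun Y => ((rho n (c + 1) m Y : ℕ) : ℚ)) := by
    change ((pcs _ _ _ : ℕ) : ℚ) = _
    exact map_pcs (Nat.castAddMonoidHom ℚ) _ _ _
  rw [h1, Finset.sdiff_sdiff_eq_self hY]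
  have h2 : pcs (Y.sort (· ≤ ·)) (col n (c + 1)) (fun Y => ((rho n (c + 1) m Y : ℕ) : ℚ)) =
      pcs (Y.sort (· ≤ ·)) (col n (c + 1)) (fun Z => del (x * W w0 Z * y)) := by
    apply pcs_congr
    intro Z hZ hcard
    rw [Finset.length_sort] at hcard
    exact h Z hZ hcard
  rw [h2]
  let φ : Lam →+ ℚ :=
    (del ∘ₗ LinearMap.mulRight ℚ y ∘ₗ LinearMap.mulLeft ℚ x).toAddMonoidHom
  have h5 := map_pcs φ (Y.sort (· ≤ ·)) (col n (c + 1)) (W w0)
  exact h5.symm

/-- The path sums, after the shift. -/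
theorem sig_H (S : Finset ℤ) (a b : ℤ) : sig (H w0 S a b) = H (fun t => sig (w0 t)) S a b := by
  unfold H
  exact sig_pcs _ _ _

theorem sig_R (S : Finset ℤ) (a b : ℤ) : sig (R w0 S a b) = R (fun t => sig (w0 t)) S a b := by
  unfold R
  exact sig_pcs _ _ _

/-- Path starting at an odd site. -/
theorem del_R {S : Finset ℤ} {a b : ℤ} (ha : a % 2 = 0) (hab : a ≤ b - b % 2)
    (hS : ∀ s ∈ S, s % 2 = 1 ∧ s ≤ b ∧ a ≤ s) (hne : S.Nonempty) :
    del (R w0 S a b) = del (W gam S * (if b % 2 = 0 then gam (b + 1) else 1)) := by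
  obtain ⟨m, hm⟩ : ∃ m : ℕ, (b - b % 2) - 2 * (m : ℤ) = a :=
    ⟨((b - b % 2 - a) / 2).toNat, by omega⟩
  have h := (H_add_R (g := gam) (w := fun t => sig (w0 t)) (fun t ht => sig_w0 ht) gam_sq
    (S := S) (b := b) (fun s hs => ⟨(hS s hs).1, (hS s hs).2.1⟩) m a ha hm).2
  have e : S.filter (fun s => a ≤ s) = S := by
    apply Finset.filter_true_of_mem
    exact fun s hs => (hS s hs).2.2
  rw [e] at h
  obtain ⟨s, -, h2⟩ := h hne
  rw [← del_gam_shift s (R w0 S a b), sig_R, h2]

/-- Path starting at an even site. -/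
theorem del_H {S : Finset ℤ} {a b : ℤ} (ha : a % 2 = 0) (hab : a ≤ b) (hb : b % 2 = 0)
    (hS : ∀ s ∈ S, s % 2 = 1 ∧ s ≤ b ∧ a ≤ s) (x y : Lam) :
    del (x * H w0 S a b * y) =
      del ((gam (a - 1) * sig x) * W gam S * (gam (b + 1) * sig y)) := by
  obtain ⟨m, hm⟩ : ∃ m : ℕ, (b - b % 2) - 2 * (m : ℤ) = a :=
    ⟨((b - b % 2 - a) / 2).toNat, by omega⟩
  have h := (H_add_R (g := gam) (w := fun t => sig (w0 t)) (fun t ht => sig_w0 ht) gam_sq
    (S := S) (b := b) (fun s hs => ⟨(hS s hs).1, (hS s hs).2.1⟩) m a ha hm).1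
  have e : S.filter (fun s => a ≤ s) = S := by
    apply Finset.filter_true_of_mem
    exact fun s hs => (hS s hs).2.2
  rw [e, if_pos hb] at h
  have h3 : H (fun t => sig (w0 t)) S a b =
      W gam S * gam (b + 1) - gam (a - 1) * R (fun t => sig (w0 t)) S a b := by
    rw [← h]; abel
  rw [← del_gam_shift (a - 1) (x * H w0 S a b * y), map_mul sig (x * H w0 S a b) y,
    map_mul sig x (H w0 S a b), sig_H, h3]
  have h4 : gam (a - 1) * (sig x * (W gam S * gam (b + 1) -
        gam (a - 1) * R (fun t => sig (w0 t)) S a b) * sig y) =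
      (gam (a - 1) * sig x) * W gam S * (gam (b + 1) * sig y) -
        (gam (a - 1) * sig x * gam (a - 1)) * (R (fun t => sig (w0 t)) S a b * sig y) := by
    noncomm_ring
  rw [h4, gam_mul_mul_gam, zero_mul, sub_zero]

/-! ### The right part of the region -/

theorem rect (n : ℕ) (hn : 1 ≤ n) (k : ℕ) (hk : k ≤ n) :
    ∀ T ⊆ col n (4 * n - 2 * k), T.card = k →
      (rho n (4 * n - 2 * k) (2 * k) T : ℚ) = del (W w0 T) := by
  induction k with
  | zero =>
    intro T _ hT
    rw [Finset.card_eq_zero] at hT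
    subst hT
    simp [rho, del_one]
  | succ k ih =>
    intro T hT hcard
    have ih' := ih (by omega)
    have hc : 4 * n - 2 * (k + 1) = 2 * (2 * n - k - 1) := by omega
    have hc1 : 4 * n - 2 * (k + 1) + 1 = 2 * (2 * n - k - 1) + 1 := by omega
    have hc2 : 4 * n - 2 * (k + 1) + 1 + 1 = 4 * n - 2 * k := by omega
    have hc2' : 4 * n - 2 * k = 2 * (2 * n - k) := by omega
    have col0 : col n (4 * n - 2 * (k + 1)) = evens (2 * (-(n : ℤ) + 1)) (2 * n) := by
      rw [hc]; exact col_even_rect (by omega)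
    have col1 : col n (4 * n - 2 * (k + 1) + 1) = odds (2 * (-(n : ℤ)) + 1) (2 * n + 1) := by
      rw [hc1]; exact col_odd_rect (by omega)
    have col2 : col n (4 * n - 2 * k) = evens (2 * (-(n : ℤ) + 1)) (2 * n) := by
      rw [hc2']; exact col_even_rect (by omega)
    change (rho n (4 * n - 2 * (k + 1)) ((2 * k + 1) + 1) T : ℚ) = _
    have key := step_even (n := n) (c := 4 * n - 2 * (k + 1)) (m := 2 * k + 1) hT (by omega)
      (by
        intro t ht
        rw [col0, mem_evens] at ht
        rw [col1, mem_odds, mem_odds]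
        omega) 1 1 ?_
    · rw [one_mul, mul_one] at key
      exact key
    · intro Y hY hYc
      have hS1 : (col n (4 * n - 2 * (k + 1) + 1)).card = 2 * n + 1 := by
        rw [col1, card_odds]; omega
      have hodd := step_odd (n := n) (c := 4 * n - 2 * (k + 1) + 1) (m := 2 * k) hY 1 1 (by
        rw [hc2]
        intro Z hZ hZc
        rw [one_mul, mul_one]
        apply ih' Z hZ
        rw [col2, card_evens] at hZc
        rw [Finset.card_sdiff_of_subset hY, hS1] at hYc
        omega)
      rw [hodd, hc2, one_mul, mul_one, one_mul, mul_one]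
      set S := col n (4 * n - 2 * (k + 1) + 1) \ Y with hSdef
      have hR : pcs ((col n (4 * n - 2 * (k + 1) + 1) \ S).sort (· ≤ ·)) (col n (4 * n - 2 * k))
          (W w0) = R w0 S (2 * (-(n : ℤ))) (2 * n + 1) := by
        unfold R
        rw [col1, col2]
        congr 1
        ext x
        rw [mem_evens, mem_evens]
        omega
      rw [hR, del_R (by omega) (by omega)]
      · rw [if_neg (by omega), mul_one]
      · intro s hs
        have : s ∈ col n (4 * n - 2 * (k + 1) + 1) := (Finset.mem_sdiff.1 hs).1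
        rw [col1, mem_odds] at this
        omega
      · rw [← Finset.card_pos]
        omega

/-! ### The left part of the region -/

/-- Left constants. -/
noncomputable def lam (n : ℕ) : ℕ → Lam
  | 0 => 1
  | j + 1 => gam (-(2 * n - 1 - 2 * j)) * sig (lam n j)

/-- Right constants. -/
noncomputable def kap (n : ℕ) : ℕ → Lam
  | 0 => gam (2 * n + 1)
  | j + 1 => gam (2 * n - 1 - 2 * j) * sig (kap n j)

theorem tip (n : ℕ) (hn : 1 ≤ n) (j : ℕ) (hj : j ≤ n - 1) :
    ∀ T ⊆ col n (2 * (n - 1 - j)), T.card = n - j →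
      (rho n (2 * (n - 1 - j)) (2 * n + 2 * (j + 1)) T : ℚ) = del (lam n j * W w0 T * kap n j) := by
  induction j with
  | zero =>
    intro T hT hcard
    have hc1 : 2 * (n - 1 - 0) + 1 = 2 * n - 1 := by omega
    have col0 : col n (2 * (n - 1 - 0)) = evens (2 * (-((n - 1 - 0 : ℕ) : ℤ))) (2 * (n - 1 - 0 : ℕ)) :=
      col_even_tip (by omega)
    have col1 : col n (2 * n - 1) = odds (2 * (-(n : ℤ)) + 1) (2 * (n - 1) + 1) :=
      col_odd_tip (by omega) le_rfl
    have col2 : col n (2 * n) = evens (2 * (-(n : ℤ) + 1)) (2 * n) := col_even_rect le_rfl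
    have e2 : 2 * n + 2 * (0 + 1) = (2 * n + 1) + 1 := by ring
    rw [e2]
    have key := step_even (n := n) (c := 2 * (n - 1 - 0)) (m := 2 * n + 1) hT (by omega)
      (by
        intro t ht
        rw [col0, mem_evens] at ht
        rw [hc1, col1, mem_odds, mem_odds]
        omega) 1 (kap n 0) ?_
    · simpa [lam] using key
    · rw [hc1]
      intro Y hY hYc
      have hS1 : (col n (2 * n - 1)).card = 2 * n := by
        rw [col1, card_odds]; omega
      have hc2 : 2 * n - 1 + 1 = 2 * n := by omega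
      have hodd := step_odd (n := n) (c := 2 * n - 1) (m := 2 * n) hY 1 1 (by
        rw [hc2]
        intro Z hZ hZc
        rw [one_mul, mul_one]
        have hr := rect n hn n le_rfl
        have e4 : 4 * n - 2 * n = 2 * n := by omega
        rw [e4] at hr
        apply hr Z hZ
        rw [col2, card_evens] at hZc
        rw [Finset.card_sdiff_of_subset hY, hS1] at hYc
        omega)
      rw [hodd, hc2, one_mul, mul_one, one_mul]
      set S := col n (2 * n - 1) \ Y with hSdef
      have hR : pcs ((col n (2 * n - 1) \ S).sort (· ≤ ·)) (col n (2 * n))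
          (W w0) = R w0 S (2 * (-(n : ℤ))) (2 * n) := by
        unfold R
        rw [col1, col2]
        congr 1
        · congr 2
          ext x
          rw [mem_odds, mem_odds]
          omega
        · ext x
          rw [mem_evens, mem_evens]
          omega
      rw [hR, del_R (by omega) (by omega)]
      · rw [if_pos (by omega)]
        rfl
      · intro s hs
        have : s ∈ col n (2 * n - 1) := (Finset.mem_sdiff.1 hs).1
        rw [col1, mem_odds] at this
        omega
      · rw [← Finset.card_pos]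
        omega
  | succ j ih =>
    intro T hT hcard
    have ih' := ih (by omega)
    obtain ⟨i, hi⟩ : ∃ i, n - 1 - j = i + 1 := ⟨n - 1 - (j + 1), by omega⟩
    have hi0 : n - 1 - (j + 1) = i := by omega
    rw [hi] at ih'
    rw [hi0] at hT ⊢
    have hc1 : 2 * i + 1 = 2 * (i + 1) - 1 := by omega
    have col0 : col n (2 * i) = evens (2 * (-(i : ℤ))) (2 * i) := col_even_tip (by omega)
    have col1 : col n (2 * i + 1) = odds (2 * (-((i + 1 : ℕ) : ℤ)) + 1) (2 * ((i + 1 : ℕ) - 1) + 1) := by
      rw [hc1]; exact col_odd_tip (by omega) (by omega)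
    have col2 : col n (2 * (i + 1)) = evens (2 * (-((i + 1 : ℕ) : ℤ))) (2 * (i + 1 : ℕ)) :=
      col_even_tip (by omega)
    have e2 : 2 * n + 2 * (j + 1 + 1) = (2 * n + 2 * (j + 1) + 1) + 1 := by ring
    rw [e2]
    have key := step_even (n := n) (c := 2 * i) (m := 2 * n + 2 * (j + 1) + 1) hT (by omega)
      (by
        intro t ht
        rw [col0, mem_evens] at ht
        rw [col1, mem_odds, mem_odds]
        omega) (lam n (j + 1)) (kap n (j + 1)) ?_
    · exact key
    · intro Y hY hYc
      have hS1 : (col n (2 * i + 1)).card = 2 * (i + 1) := by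
        rw [col1, card_odds]; omega
      have hodd := step_odd (n := n) (c := 2 * i + 1) (m := 2 * n + 2 * (j + 1)) hY
        (lam n j) (kap n j) (by
        intro Z hZ hZc
        have e5 : 2 * i + 1 + 1 = 2 * (i + 1) := by ring
        rw [e5] at hZ hZc ⊢
        apply ih' Z hZ
        rw [col2, card_evens] at hZc
        rw [Finset.card_sdiff_of_subset hY, hS1] at hYc
        omega)
      rw [hodd]
      have e5 : 2 * i + 1 + 1 = 2 * (i + 1) := by ring
      rw [e5]
      set S := col n (2 * i + 1) \ Y with hSdef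
      have hR : pcs ((col n (2 * i + 1) \ S).sort (· ≤ ·)) (col n (2 * (i + 1)))
          (W w0) = H w0 S (2 * (-((i + 1 : ℕ) : ℤ))) (2 * (i + 1 : ℕ)) := by
        unfold H
        rw [col1, col2]
        congr 3
        ext x
        rw [mem_odds, mem_odds]
        omega
      rw [hR, del_H (by omega) (by omega) (by omega)]
      · have e6 : (2 * (-((i + 1 : ℕ) : ℤ)) - 1) = -(2 * n - 1 - 2 * j) := by omega
        have e7 : (2 * ((i + 1 : ℕ) : ℤ) + 1) = 2 * n - 1 - 2 * j := by omega
        rw [e6, e7]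
        rfl
      · intro s hs
        have : s ∈ col n (2 * i + 1) := (Finset.mem_sdiff.1 hs).1
        rw [col1, mem_odds] at this
        omega

/-- The number of perfect matchings of the region. -/
theorem rho_eq_del (n : ℕ) (hn : 1 ≤ n) :
    (rho n 0 (4 * n) {0} : ℚ) =
      del (lam n (n - 1) * (gam (-1) + gam 1) * kap n (n - 1)) := by
  have h := tip n hn (n - 1) le_rfl {0}
  have e1 : 2 * (n - 1 - (n - 1)) = 0 := by omega
  have e2 : 2 * n + 2 * (n - 1 + 1) = 4 * n := by omega
  have e3 : n - (n - 1) = 1 := by omega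
  rw [e1, e2, e3] at h
  rw [h ?_ (by simp)]
  · congr 3
    simp [W, w0]
  · intro x hx
    rw [Finset.mem_singleton] at hx
    subst hx
    rw [mem_col]
    simp
    omega

end Pool.Agent.H74.Bz
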