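import Pool.Agent.H74.Bz.Pcs

/-!
Exterior algebra over the power series: the linear form `del` (a determinant of coefficients)
and its behaviour under the shift (multiplication by the variable).
-/

namespace Pool.Agent.H74.Bz

open ExteriorAlgebra

/-- The space of vectors: power series in one variable. -/
abbrev V := PowerSeries ℚ

/-- The exterior algebra. -/
abbrev Lam := ExteriorAlgebra ℚ V

/-- The first `N` coefficients. -/
noncomputable def coeffs (N : ℕ) : V →ₗ[ℚ] (Fin N → ℚ) :=
  LinearMap.pi (fun a => PowerSeries.coeff (R := ℚ) a.val)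

theorem coeffs_apply (N : ℕ) (f : V) (a : Fin N) : coeffs N f a = PowerSeries.coeff a.val f := rfl

/-- The linear form on the exterior algebra with value
`det (coeff a (v j))` on `v 0 * ... * v (N - 1)`. -/
noncomputable def del : Lam →ₗ[ℚ] ℚ :=
  liftAlternating (fun N => (Matrix.detRowAlternating (R := ℚ) (n := Fin N)).compLinearMap (coeffs N))

theorem del_iMulti {N : ℕ} (v : Fin N → V) :
    del (ιMulti ℚ N v) = Matrix.det (Matrix.of fun j a => PowerSeries.coeff a.val (v j)) := by
  unfold del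
  rw [liftAlternating_apply_ιMulti]
  rfl

/-- Multiplication by the variable. -/
noncomputable def mulX : V →ₗ[ℚ] V := LinearMap.mulLeft ℚ (PowerSeries.X)

theorem mulX_apply (f : V) : mulX f = PowerSeries.X * f := rfl

/-- The induced map of the exterior algebra. -/
noncomputable def sig : Lam →ₐ[ℚ] Lam := ExteriorAlgebra.map mulX

theorem sig_iota (f : V) : sig (ι ℚ f) = ι ℚ (PowerSeries.X * f) := by
  unfold sig
  rw [map_apply_ι, mulX_apply]

/-- `del` vanishes on shifted products of positive degree. -/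
theorem del_sig_iota_mul (f : V) (y : Lam) : del (sig (ι ℚ f * y)) = 0 := by
  have h : (del ∘ₗ sig.toLinearMap ∘ₗ LinearMap.mulLeft ℚ (ι ℚ f) : Lam →ₗ[ℚ] ℚ) = 0 := by
    apply lhom_ext
    intro i
    ext v
    simp only [LinearMap.compAlternatingMap_apply, LinearMap.comp_apply, AlgHom.toLinearMap_apply,
      LinearMap.mulLeft_apply, LinearMap.zero_apply]
    have h1 : ι ℚ f * ιMulti ℚ i v = ιMulti ℚ (i + 1) (Matrix.vecCons f v) := by
      rw [ιMulti_succ_apply]
      simp
    rw [h1]
    unfold sig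
    rw [map_apply_ιMulti, del_iMulti]
    apply Matrix.det_eq_zero_of_column_eq_zero (0 : Fin (i + 1))
    intro j
    simp [mulX_apply]
  have := congrArg (fun (L : Lam →ₗ[ℚ] ℚ) => L y) h
  simpa using this

/-- The shift lemma. -/
theorem del_shift {G : V} (hG : PowerSeries.constantCoeff G = 1) (y : Lam) :
    del (ι ℚ G * sig y) = del y := by
  have h : (del ∘ₗ LinearMap.mulLeft ℚ (ι ℚ G) ∘ₗ sig.toLinearMap : Lam →ₗ[ℚ] ℚ) = del := by
    apply lhom_ext
    intro i
    ext v
    simp only [LinearMap.compAlternatingMap_apply, LinearMap.comp_apply, AlgHom.toLinearMap_apply,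
      LinearMap.mulLeft_apply]
    unfold sig
    rw [map_apply_ιMulti]
    have h1 : ι ℚ G * ιMulti ℚ i (mulX ∘ v) = ιMulti ℚ (i + 1) (Matrix.vecCons G (mulX ∘ v)) := by
      rw [ιMulti_succ_apply]
      simp
    rw [h1, del_iMulti, del_iMulti, Matrix.det_succ_column_zero, Fin.sum_univ_succ]
    have h2 : ∀ j : Fin i, (Matrix.of fun (j : Fin (i+1)) (a : Fin (i+1)) =>
        PowerSeries.coeff a.val (Matrix.vecCons G (⇑mulX ∘ v) j)) j.succ 0 = 0 := by
      intro j
      simp [mulX_apply]
    simp only [h2, mul_zero, zero_mul, Finset.sum_const_zero, add_zero]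
    have h3 : (Matrix.of fun (j : Fin (i+1)) (a : Fin (i+1)) =>
        PowerSeries.coeff a.val (Matrix.vecCons G (⇑mulX ∘ v) j)) 0 0 = 1 := by
      simp [hG]
    rw [h3]
    simp only [Fin.val_zero, pow_zero, one_mul, Fin.succAbove_zero]
    congr 1
    ext a b
    simp [mulX_apply, PowerSeries.coeff_succ_X_mul]
  have := congrArg (fun (L : Lam →ₗ[ℚ] ℚ) => L y) h
  simpa using this

theorem iota_mul_list_mul_iota (f : V) (l : List V) :
    ι ℚ f * (l.map (ι ℚ)).prod * ι ℚ f = 0 := by
  induction l with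
  | nil => simp
  | cons g l ih =>
    rw [List.map_cons, List.prod_cons]
    have h := ι_add_mul_swap (R := ℚ) f g
    have h2 : ι ℚ f * ι ℚ g = -(ι ℚ g * ι ℚ f) := eq_neg_of_add_eq_zero_left h
    calc ι ℚ f * (ι ℚ g * (l.map (ι ℚ)).prod) * ι ℚ f
        = (ι ℚ f * ι ℚ g) * (l.map (ι ℚ)).prod * ι ℚ f := by simp only [mul_assoc]
      _ = -(ι ℚ g * (ι ℚ f * (l.map (ι ℚ)).prod * ι ℚ f)) := by
          rw [h2]; simp only [neg_mul, mul_assoc]
      _ = 0 := by rw [ih, mul_zero, neg_zero]

/-- `v * x * v = 0` in the exterior algebra. -/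
theorem iota_mul_mul_iota (f : V) (x : Lam) : ι ℚ f * x * ι ℚ f = 0 := by
  have h : (LinearMap.mulRight ℚ (ι ℚ f) ∘ₗ LinearMap.mulLeft ℚ (ι ℚ f) : Lam →ₗ[ℚ] Lam) = 0 := by
    apply lhom_ext
    intro i
    ext v
    simp only [LinearMap.compAlternatingMap_apply, LinearMap.comp_apply,
      LinearMap.mulLeft_apply, LinearMap.mulRight_apply, LinearMap.zero_apply]
    rw [ιMulti_apply]
    have := iota_mul_list_mul_iota f (List.ofFn v)
    rw [List.map_ofFn] at this
    exact this
  have := congrArg (fun (L : Lam →ₗ[ℚ] Lam) => L x) h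
  simpa using this

end Pool.Agent.H74.Bz
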